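import Pool.Agent.Lib.MP_1ae38f_an.Defs

set_option autoImplicit false

open Metric Set Real MeasureTheory Complex Filter Topology
open scoped ENNReal

namespace Pool.Agent.Lib.MP_1ae38f_an

/-- integration in polar coordinates -/
theorem lintegral_polar {g : ℂ → ℝ≥0∞} (hg : Measurable g) :
    ∫⁻ z, g z = ∫⁻ r in Ioi (0 : ℝ), ∫⁻ θ in Ioo (-π) π,
      ENNReal.ofReal r * g (r * Complex.exp (θ * Complex.I)) := by
  have h1 : ∀ p : ℝ × ℝ, Complex.polarCoord.symm p = p.1 * Complex.exp (p.2 * Complex.I) := by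
    intro p
    rw [Complex.polarCoord_symm_apply, Complex.exp_mul_I, Complex.ofReal_cos, Complex.ofReal_sin]
  rw [← Complex.lintegral_comp_polarCoord_symm]
  change ∫⁻ p in Ioi (0 : ℝ) ×ˢ Ioo (-π) π, _ = _
  rw [Measure.volume_eq_prod, ← Measure.prod_restrict, lintegral_prod]
  · refine lintegral_congr fun r => lintegral_congr fun θ => ?_
    rw [h1, smul_eq_mul]
  · refine Measurable.aemeasurable ?_
    simp only [h1, smul_eq_mul]
    refine (ENNReal.measurable_ofReal.comp measurable_fst).mul (hg.comp ?_)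
    fun_prop

/-- measurability of extensions by zero -/
theorem measurable_indicator_ball {u : ℂ → ℝ} {R : ℝ} (hu : ContinuousOn u (ball 0 R)) :
    Measurable ((ball (0 : ℂ) R).indicator fun z => ENNReal.ofReal (u z)) := by
  classical
  rw [← Set.piecewise_eq_indicator]
  exact ContinuousOn.measurable_piecewise (ENNReal.continuous_ofReal.comp_continuousOn hu)
    continuousOn_const measurableSet_ball

theorem norm_mul_exp {r θ : ℝ} (hr : 0 < r) : ‖(r : ℂ) * Complex.exp (θ * Complex.I)‖ = r := by
  rw [norm_mul, Complex.norm_real, Complex.norm_exp_ofReal_mul_I, mul_one, Real.norm_eq_abs,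
    abs_of_pos hr]

/-- integral over a full period as lower Lebesgue integral -/
theorem lintegral_circle {u : ℂ → ℝ} {R r : ℝ} (hu : ContinuousOn u (ball 0 R))
    (hu0 : ∀ z ∈ ball (0 : ℂ) R, 0 ≤ u z) (hr : 0 < r) (hrR : r < R) :
    ∫⁻ θ in Ioo (-π) π, ENNReal.ofReal (u (r * Complex.exp (θ * Complex.I))) =
      ENNReal.ofReal (∫ θ in (0 : ℝ)..(2 * π), u (r * Complex.exp (θ * Complex.I))) := by
  have hmem : ∀ θ : ℝ, (r : ℂ) * Complex.exp (θ * Complex.I) ∈ ball (0 : ℂ) R := by
    intro θ
    rw [mem_ball_zero_iff, norm_mul_exp hr]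
    exact hrR
  have hcont : Continuous fun θ : ℝ => u (r * Complex.exp (θ * Complex.I)) :=
    hu.comp_continuous (by fun_prop) hmem
  have hper : Function.Periodic (fun θ : ℝ => u (r * Complex.exp (θ * Complex.I))) (2 * π) := by
    intro θ
    change u _ = u _
    congr 2
    push_cast
    rw [add_mul, Complex.exp_periodic]
  have h1 : ∫ θ in (0 : ℝ)..(2 * π), u (r * Complex.exp (θ * Complex.I)) =
      ∫ θ in Ioo (-π) π, u (r * Complex.exp (θ * Complex.I)) := by
    have h2 := hper.intervalIntegral_add_eq (-π) 0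
    rw [zero_add] at h2
    rw [← h2, show -π + 2 * π = π by ring, intervalIntegral.integral_of_le (by
      have := Real.pi_pos; linarith), integral_Ioc_eq_integral_Ioo]
  rw [h1, ofReal_integral_eq_lintegral_ofReal]
  · exact (hcont.integrableOn_Icc).mono_set Ioo_subset_Icc_self
  · exact Eventually.of_forall fun θ => hu0 _ (hmem θ)

/-- Hardy spaces are contained in the weighted Bergman spaces. -/
theorem memBergman_of_memHardy {p α : ℝ} (hp : 0 < p) (hα : -1 < α) {f : ℂ → ℂ}
    (hf : MemHardy p f) : MemBergman p α f := by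
  obtain ⟨hd, C, hC⟩ := hf
  have hfc : ContinuousOn (fun z => ‖f z‖ ^ p) (ball (0 : ℂ) 1) :=
    (hd.continuousOn.norm).rpow_const fun z _ => Or.inr hp.le
  have hpos : ∀ z ∈ ball (0 : ℂ) 1, 0 < 1 - ‖z‖ := fun z hz =>
    sub_pos.2 (mem_ball_zero_iff.1 hz)
  have hu : ContinuousOn (fun z => ‖f z‖ ^ p * (1 - ‖z‖) ^ α) (ball (0 : ℂ) 1) := by
    refine hfc.mul ?_
    exact ((continuous_const.sub continuous_norm).continuousOn).rpow_const
      fun z hz => Or.inl (hpos z hz).ne'
  refine ⟨hd, hu.aestronglyMeasurable measurableSet_ball, ?_⟩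
  rw [hasFiniteIntegral_iff_ofReal]
  swap
  · filter_upwards [ae_restrict_mem measurableSet_ball] with z hz
    exact mul_nonneg (Real.rpow_nonneg (norm_nonneg _) _) (Real.rpow_nonneg (hpos z hz).le _)
  rw [← lintegral_indicator measurableSet_ball, lintegral_polar (measurable_indicator_ball hu)]
  have hint : IntegrableOn (fun r : ℝ => C * (1 - r) ^ α) (Ioo 0 1) := by
    have h1 : IntervalIntegrable (fun r : ℝ => r ^ α) volume 0 1 :=
      intervalIntegral.intervalIntegrable_rpow' hα
    have h2 := (h1.comp_sub_left 1).symm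
    rw [sub_zero, sub_self] at h2
    have h3 := (intervalIntegrable_iff_integrableOn_Ioo_of_le zero_le_one).1 h2
    exact h3.const_mul C
  calc ∫⁻ r in Ioi (0 : ℝ), ∫⁻ θ in Ioo (-π) π, ENNReal.ofReal r *
        (ball (0 : ℂ) 1).indicator (fun z => ENNReal.ofReal (‖f z‖ ^ p * (1 - ‖z‖) ^ α))
          (r * Complex.exp (θ * Complex.I))
      ≤ ∫⁻ r in Ioi (0 : ℝ), (Ioo (0 : ℝ) 1).indicator
          (fun r => ENNReal.ofReal (C * (1 - r) ^ α)) r := by
        refine setLIntegral_mono' measurableSet_Ioi fun r hr => ?_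
        by_cases hr1 : r < 1
        · rw [indicator_of_mem (show r ∈ Ioo (0 : ℝ) 1 from ⟨hr, hr1⟩)]
          have hr' : 0 < 1 - r := sub_pos.2 hr1
          calc _ = ∫⁻ θ in Ioo (-π) π, ENNReal.ofReal (r * (1 - r) ^ α) *
                ENNReal.ofReal (‖f (r * Complex.exp (θ * Complex.I))‖ ^ p) := by
                refine lintegral_congr fun θ => ?_
                rw [indicator_of_mem, norm_mul_exp hr, ← ENNReal.ofReal_mul hr.le,
                  ← ENNReal.ofReal_mul (mul_nonneg hr.le (Real.rpow_nonneg hr'.le _))]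
                · congr 1
                  ring
                · rw [mem_ball_zero_iff, norm_mul_exp hr]
                  exact hr1
            _ = ENNReal.ofReal (r * (1 - r) ^ α) * ∫⁻ θ in Ioo (-π) π,
                ENNReal.ofReal (‖f (r * Complex.exp (θ * Complex.I))‖ ^ p) :=
                lintegral_const_mul' _ _ ENNReal.ofReal_ne_top
            _ = ENNReal.ofReal (r * (1 - r) ^ α) * ENNReal.ofReal (∫ θ in (0 : ℝ)..(2 * π),
                ‖f (r * Complex.exp (θ * Complex.I))‖ ^ p) := by
                rw [lintegral_circle hfc (fun z _ => Real.rpow_nonneg (norm_nonneg _) _) hr hr1]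
            _ ≤ ENNReal.ofReal ((1 - r) ^ α) * ENNReal.ofReal C := by
                refine mul_le_mul' (ENNReal.ofReal_le_ofReal ?_)
                  (ENNReal.ofReal_le_ofReal (hC r hr hr1))
                exact mul_le_of_le_one_left (Real.rpow_nonneg hr'.le _) hr1.le
            _ = ENNReal.ofReal (C * (1 - r) ^ α) := by
                rw [← ENNReal.ofReal_mul (Real.rpow_nonneg hr'.le _), mul_comm]
        · refine le_of_eq_of_le (b := 0) ?_ bot_le
          rw [lintegral_eq_zero_iff']
          · refine Eventually.of_forall fun θ => ?_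
            change ENNReal.ofReal r * (ball (0 : ℂ) 1).indicator
              (fun z => ENNReal.ofReal (‖f z‖ ^ p * (1 - ‖z‖) ^ α))
              (r * Complex.exp (θ * Complex.I)) = 0
            rw [indicator_of_notMem, mul_zero]
            rw [mem_ball_zero_iff, norm_mul_exp hr]
            exact hr1
          · refine Measurable.aemeasurable ?_
            refine measurable_const.mul ((measurable_indicator_ball hu).comp ?_)
            fun_prop
    _ = ∫⁻ r in Ioo (0 : ℝ) 1, ENNReal.ofReal (C * (1 - r) ^ α) := by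
        rw [lintegral_indicator measurableSet_Ioo, Measure.restrict_restrict measurableSet_Ioo,
          inter_eq_left.2 Ioo_subset_Ioi_self]
    _ < ∞ := hint.lintegral_lt_top

/-- area mean value inequality -/
theorem area_mean {g : ℂ → ℂ} {z : ℂ} {ρ : ℝ} (hρ : 0 < ρ)
    (hg : DifferentiableOn ℂ g (ball z ρ)) :
    ENNReal.ofReal (π * ρ ^ 2 * ‖g z‖) ≤ ∫⁻ w in ball z ρ, ENNReal.ofReal ‖g w‖ := by
  have hmaps : ∀ w ∈ ball (0 : ℂ) ρ, z + w ∈ ball z ρ := by
    intro w hw
    rwa [mem_ball, dist_eq_norm, add_sub_cancel_left, ← mem_ball_zero_iff]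
  have hc : ContinuousOn (fun w => ‖g (z + w)‖) (ball (0 : ℂ) ρ) :=
    (hg.continuousOn.comp (by fun_prop) hmaps).norm
  have h1 : ∫⁻ w in ball z ρ, ENNReal.ofReal ‖g w‖ =
      ∫⁻ w, (ball (0 : ℂ) ρ).indicator (fun w => ENNReal.ofReal ‖g (z + w)‖) w := by
    rw [← lintegral_indicator measurableSet_ball, ← lintegral_add_left_eq_self _ z]
    refine lintegral_congr fun w => ?_
    by_cases hw : w ∈ ball (0 : ℂ) ρ
    · rw [indicator_of_mem hw, indicator_of_mem (hmaps w hw)]
    · rw [indicator_of_notMem hw, indicator_of_notMem]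
      intro h
      apply hw
      rwa [mem_ball, dist_eq_norm, add_sub_cancel_left, ← mem_ball_zero_iff] at h
  rw [h1, lintegral_polar (measurable_indicator_ball hc)]
  have hmean : ∀ r : ℝ, 0 < r → r < ρ → 2 * π * ‖g z‖ ≤
      ∫ θ in (0 : ℝ)..(2 * π), ‖g (z + r * Complex.exp (θ * Complex.I))‖ := by
    intro r hr hrρ
    have h2 : DiffContOnCl ℂ g (ball z |r|) := by
      rw [abs_of_pos hr]
      refine DifferentiableOn.diffContOnCl (hg.mono ?_)
      exact closure_ball_subset_closedBall.trans (closedBall_subset_ball hrρ)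
    have h3 := h2.circleAverage
    rw [circleAverage_def] at h3
    rw [← h3, norm_smul, norm_inv, Real.norm_eq_abs, abs_of_pos (by positivity : 0 < 2 * π),
      mul_inv_cancel_left₀ (by positivity)]
    refine (intervalIntegral.norm_integral_le_integral_norm (by positivity)).trans (le_of_eq ?_)
    rfl
  have hint : ENNReal.ofReal (∫ r in Ioo (0 : ℝ) ρ, r * (2 * π * ‖g z‖)) =
      ∫⁻ r in Ioo (0 : ℝ) ρ, ENNReal.ofReal (r * (2 * π * ‖g z‖)) := by
    rw [ofReal_integral_eq_lintegral_ofReal]
    · refine IntegrableOn.mono_set ?_ Ioo_subset_Icc_self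
      exact Continuous.integrableOn_Icc (by fun_prop)
    · filter_upwards [ae_restrict_mem measurableSet_Ioo] with r hr
      have := hr.1
      change 0 ≤ r * (2 * π * ‖g z‖)
      positivity
  have hval : ∫ r in Ioo (0 : ℝ) ρ, r * (2 * π * ‖g z‖) = π * ρ ^ 2 * ‖g z‖ := by
    rw [← integral_Ioc_eq_integral_Ioo, ← intervalIntegral.integral_of_le hρ.le,
      intervalIntegral.integral_mul_const, integral_id]
    ring
  rw [← hval, hint]
  calc ∫⁻ r in Ioo (0 : ℝ) ρ, ENNReal.ofReal (r * (2 * π * ‖g z‖))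
      ≤ ∫⁻ r in Ioo (0 : ℝ) ρ, ∫⁻ θ in Ioo (-π) π, ENNReal.ofReal r *
        (ball (0 : ℂ) ρ).indicator (fun w => ENNReal.ofReal ‖g (z + w)‖)
          (r * Complex.exp (θ * Complex.I)) := by
        refine setLIntegral_mono' measurableSet_Ioo fun r hr => ?_
        rw [lintegral_const_mul' _ _ ENNReal.ofReal_ne_top, ENNReal.ofReal_mul hr.1.le]
        refine mul_le_mul' le_rfl ?_
        calc ENNReal.ofReal (2 * π * ‖g z‖) ≤ ENNReal.ofReal (∫ θ in (0 : ℝ)..(2 * π),
              ‖g (z + r * Complex.exp (θ * Complex.I))‖) :=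
              ENNReal.ofReal_le_ofReal (hmean r hr.1 hr.2)
          _ = ∫⁻ θ in Ioo (-π) π,
              ENNReal.ofReal ‖g (z + r * Complex.exp (θ * Complex.I))‖ :=
              (lintegral_circle (u := fun w => ‖g (z + w)‖) hc (fun _ _ => norm_nonneg _)
                hr.1 hr.2).symm
          _ = _ := by
              refine lintegral_congr fun θ => ?_
              rw [indicator_of_mem]
              rw [mem_ball_zero_iff, norm_mul_exp hr.1]
              exact hr.2
    _ ≤ _ := lintegral_mono_set Ioo_subset_Ioi_self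

end Pool.Agent.Lib.MP_1ae38f_an
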