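import Mathlib

/-!
Hardy and Bergman numbers of plane domains.
-/

set_option autoImplicit false

open Metric Set Real MeasureTheory Complex
open scoped ENNReal

namespace Pool.Agent.Lib.MP_1ae38f_an

/-- A domain: a nonempty connected open subset of the complex plane. -/
def IsDomainSet (D : Set ℂ) : Prop := IsOpen D ∧ IsConnected D

/-- `f` belongs to the Hardy space `H^p` of the unit disk. -/
def MemHardy (p : ℝ) (f : ℂ → ℂ) : Prop :=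
  DifferentiableOn ℂ f (ball 0 1) ∧
    ∃ C : ℝ, ∀ r : ℝ, 0 < r → r < 1 →
      ∫ θ in (0 : ℝ)..(2 * π), ‖f (r * Complex.exp (θ * Complex.I))‖ ^ p ≤ C

/-- `f` belongs to the weighted Bergman space `A^p_α` of the unit disk. -/
def MemBergman (p α : ℝ) (f : ℂ → ℂ) : Prop :=
  DifferentiableOn ℂ f (ball 0 1) ∧
    IntegrableOn (fun z : ℂ => ‖f z‖ ^ p * (1 - ‖z‖) ^ α) (ball 0 1) volume

/-- `𝔥(f) = sup ({0} ∪ {p > 0 : f ∈ H^p})`. -/
noncomputable def hardyOfFun (f : ℂ → ℂ) : ℝ≥0∞ :=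
  ⨆ (p : ℝ) (_ : 0 < p) (_ : MemHardy p f), ENNReal.ofReal p

/-- `𝔟(f) = sup ({0} ∪ {p / (α + 2) : p > 0, α > -1, f ∈ A^p_α})`. -/
noncomputable def bergmanOfFun (f : ℂ → ℂ) : ℝ≥0∞ :=
  ⨆ (p : ℝ) (α : ℝ) (_ : 0 < p) (_ : -1 < α) (_ : MemBergman p α f),
    ENNReal.ofReal (p / (α + 2))

/-- `𝔟_α(f) = sup ({0} ∪ {p > 0 : f ∈ A^p_α})`. -/
noncomputable def weightedBergmanOfFun (α : ℝ) (f : ℂ → ℂ) : ℝ≥0∞ :=
  ⨆ (p : ℝ) (_ : 0 < p) (_ : MemBergman p α f), ENNReal.ofReal p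

/-- `Hol(𝔻, D)`: the maps that are holomorphic on the unit disk and map it into `D`. -/
def Hol (D : Set ℂ) : Set (ℂ → ℂ) :=
  {f | DifferentiableOn ℂ f (ball 0 1) ∧ MapsTo f (ball 0 1) D}

/-- The Hardy number `𝔥(D)`. -/
noncomputable def hardyNumber (D : Set ℂ) : ℝ≥0∞ := ⨅ f ∈ Hol D, hardyOfFun f

/-- The Bergman number `𝔟(D)`. -/
noncomputable def bergmanNumber (D : Set ℂ) : ℝ≥0∞ := ⨅ f ∈ Hol D, bergmanOfFun f

/-- The weighted Bergman number `𝔟_α(D)`. -/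
noncomputable def weightedBergmanNumber (α : ℝ) (D : Set ℂ) : ℝ≥0∞ :=
  ⨅ f ∈ Hol D, weightedBergmanOfFun α f

/-- `D₁` and `D₂` agree outside some disk centred at `0`. -/
def AgreeNearInfinity (D₁ D₂ : Set ℂ) : Prop :=
  ∃ R : ℝ, 0 < R ∧ D₁ ∩ {z | R < ‖z‖} = D₂ ∩ {z | R < ‖z‖}

end Pool.Agent.Lib.MP_1ae38f_an
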