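import Mathlib

set_option autoImplicit false

open Metric Set Real Filter Topology Complex

namespace Pool.Agent.Lib.MP_1ae38f_an

/-- local super-mean-value property of `u` at `z` -/
def LocSuper (u : ℂ → ℝ) (z : ℂ) : Prop :=
  ∃ ρ : ℝ, 0 < ρ ∧ ∀ t : ℝ, 0 < t → t < ρ → circleAverage u z t ≤ u z

/-- minimum principle -/
theorem nonneg_of_locSuper {w : ℂ → ℝ} {r : ℝ} (hr : 0 < r)
    (hw : ContinuousOn w (closedBall 0 r)) (hloc : ∀ z ∈ ball (0 : ℂ) r, LocSuper w z)
    (hb : ∀ z ∈ sphere (0 : ℂ) r, 0 ≤ w z) : ∀ z ∈ closedBall (0 : ℂ) r, 0 ≤ w z := by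
  have hK : IsCompact (closedBall (0 : ℂ) r) := isCompact_closedBall 0 r
  obtain ⟨z₁, hz₁, hmin⟩ := hK.exists_isMinOn (nonempty_closedBall.2 hr.le) hw
  by_contra hcon
  push Not at hcon
  obtain ⟨z₂, hz₂, hz₂'⟩ := hcon
  have hm : w z₁ < 0 := (hmin hz₂).trans_lt hz₂'
  have hS : IsCompact (closedBall (0 : ℂ) r ∩ w ⁻¹' {w z₁}) := by
    refine hK.of_isClosed_subset ?_ inter_subset_left
    exact hw.preimage_isClosed_of_isClosed isClosed_closedBall isClosed_singleton
  obtain ⟨z₀, hz₀, hmax⟩ := hS.exists_isMaxOn ⟨z₁, hz₁, rfl⟩ continuous_norm.continuousOn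
  have hwz₀ : w z₀ = w z₁ := hz₀.2
  have hz₀b : z₀ ∈ ball (0 : ℂ) r := by
    rcases lt_or_eq_of_le (mem_closedBall_zero_iff.1 hz₀.1) with h | h
    · exact mem_ball_zero_iff.2 h
    · have := hb z₀ (mem_sphere_zero_iff_norm.2 h)
      linarith
  obtain ⟨ρ, hρ, hρ2⟩ := hloc z₀ hz₀b
  obtain ⟨t, ht, htρ, htr⟩ : ∃ t : ℝ, 0 < t ∧ t < ρ ∧ t < r - ‖z₀‖ := by
    have h1 : 0 < r - ‖z₀‖ := sub_pos.2 (mem_ball_zero_iff.1 hz₀b)
    refine ⟨min ρ (r - ‖z₀‖) / 2, by positivity, ?_, ?_⟩
    · have := min_le_left ρ (r - ‖z₀‖)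
      have : 0 < min ρ (r - ‖z₀‖) := lt_min hρ h1
      linarith
    · have := min_le_right ρ (r - ‖z₀‖)
      have : 0 < min ρ (r - ‖z₀‖) := lt_min hρ h1
      linarith
  have hcirc : ∀ θ : ℝ, circleMap z₀ t θ ∈ closedBall (0 : ℂ) r := by
    intro θ
    rw [mem_closedBall_zero_iff]
    have h1 : ‖circleMap z₀ t θ - z₀‖ = t := by
      have := circleMap_mem_sphere z₀ ht.le θ
      rwa [mem_sphere_iff_norm] at this
    calc ‖circleMap z₀ t θ‖ = ‖(circleMap z₀ t θ - z₀) + z₀‖ := by rw [sub_add_cancel]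
      _ ≤ ‖circleMap z₀ t θ - z₀‖ + ‖z₀‖ := norm_add_le _ _
      _ ≤ r := by rw [h1]; linarith
  -- a point of the circle with larger norm
  obtain ⟨θ₀, hθ₀, hθ₀'⟩ : ∃ θ₀ ∈ Icc (0 : ℝ) (2 * π), ‖z₀‖ < ‖circleMap z₀ t θ₀‖ := by
    by_cases h0 : z₀ = 0
    · refine ⟨0, ⟨le_rfl, by positivity⟩, ?_⟩
      rw [h0, norm_zero, norm_circleMap_zero]
      exact abs_pos.2 ht.ne'
    · have hex : ∃ θ ∈ Ico (0 : ℝ) (2 * π), circleMap 0 1 θ = z₀ / ‖z₀‖ := by
        have h1 : z₀ / ‖z₀‖ ∈ sphere (0 : ℂ) |1| := by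
          rw [mem_sphere_zero_iff_norm, norm_div, Complex.norm_real, norm_norm, abs_one]
          exact div_self (norm_ne_zero_iff.2 h0)
        rw [← image_circleMap_Ioc 0 1, mem_image] at h1
        obtain ⟨x, hx, hx2⟩ := h1
        rcases eq_or_lt_of_le hx.2 with h | h
        · refine ⟨0, ⟨le_rfl, by positivity⟩, ?_⟩
          rw [← hx2, h]
          have := periodic_circleMap (0 : ℂ) 1 0
          rw [zero_add] at this
          exact this.symm
        · exact ⟨x, ⟨hx.1.le, h⟩, hx2⟩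
      obtain ⟨θ, hθ, hθ2⟩ := hex
      refine ⟨θ, ⟨hθ.1, hθ.2.le⟩, ?_⟩
      have h3 : circleMap z₀ t θ = z₀ + t * (z₀ / ‖z₀‖) := by
        rw [← hθ2]
        simp [circleMap]
      have h4 : z₀ + t * (z₀ / ‖z₀‖) = ((1 + t / ‖z₀‖ : ℝ) : ℂ) * z₀ := by
        push_cast
        ring
      have h5 : 0 < ‖z₀‖ := norm_pos_iff.2 h0
      rw [h3, h4, norm_mul, Complex.norm_real, Real.norm_eq_abs, abs_of_pos (by positivity)]
      have : (1 + t / ‖z₀‖) * ‖z₀‖ = ‖z₀‖ + t := by field_simp
      rw [this]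
      linarith
  have hlt : w z₁ < w (circleMap z₀ t θ₀) := by
    refine lt_of_le_of_ne (hmin (hcirc θ₀)) fun h => ?_
    have := hmax (show circleMap z₀ t θ₀ ∈ closedBall (0 : ℂ) r ∩ w ⁻¹' {w z₁} from
      ⟨hcirc θ₀, h.symm⟩)
    exact absurd this (not_le.2 hθ₀')
  have hcont : ContinuousOn (fun θ => w (circleMap z₀ t θ)) (Icc 0 (2 * π)) :=
    (hw.comp_continuous (continuous_circleMap z₀ t) hcirc).continuousOn
  have hint := intervalIntegral.integral_lt_integral_of_continuousOn_of_le_of_exists_lt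
    (f := fun _ => w z₁) (g := fun θ => w (circleMap z₀ t θ)) (a := 0) (b := 2 * π)
    (by positivity) continuousOn_const hcont (fun θ _ => hmin (hcirc θ)) ⟨θ₀, hθ₀, hlt⟩
  have h6 := hρ2 t ht htρ
  rw [hwz₀, circleAverage_def, smul_eq_mul] at h6
  rw [intervalIntegral.integral_const, smul_eq_mul, sub_zero] at hint
  have h7 : 0 < 2 * π := by positivity
  rw [inv_mul_le_iff₀ h7] at h6
  linarith

/-- real parts of holomorphic polynomials approximate continuous functions on the circle -/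
theorem exists_re_approx {u : ℂ → ℝ} {r : ℝ} (hr : 0 < r)
    (hu : ContinuousOn u (sphere 0 r)) {ε : ℝ} (hε : 0 < ε) :
    ∃ q : ℂ → ℂ, Differentiable ℂ q ∧ ∀ z ∈ sphere (0 : ℂ) r, |u z - (q z).re| < ε := by
  have : Fact (0 < 2 * π) := ⟨by positivity⟩
  have hmem : ∀ x : AddCircle (2 * π), (r : ℂ) * (AddCircle.toCircle x : ℂ) ∈ sphere (0 : ℂ) r := by
    intro x
    rw [mem_sphere_zero_iff_norm, norm_mul, Complex.norm_real, Real.norm_eq_abs, abs_of_pos hr,
      Circle.norm_coe, mul_one]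
  have hcont : Continuous fun x : AddCircle (2 * π) => (r : ℂ) * (AddCircle.toCircle x : ℂ) :=
    continuous_const.mul (continuous_induced_dom.comp AddCircle.continuous_toCircle)
  let U : C(AddCircle (2 * π), ℂ) :=
    ⟨fun x => ((u ((r : ℂ) * (AddCircle.toCircle x : ℂ)) : ℝ) : ℂ),
      Complex.continuous_ofReal.comp (hu.comp_continuous hcont hmem)⟩
  have hU : U ∈ (Submodule.span ℂ (range <| @fourier (2 * π))).topologicalClosure := by
    rw [span_fourier_closure_eq_top]
    trivial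
  obtain ⟨g, hg, hgU⟩ := Metric.mem_closure_iff.1 hU ε hε
  have hP : ∀ c : ℂ, ∃ q : ℂ → ℂ, Differentiable ℂ q ∧
      ∀ x : AddCircle (2 * π), (c * g x).re = (q ((r : ℂ) * (AddCircle.toCircle x : ℂ))).re := by
    refine Submodule.span_induction (p := fun g _ => ∀ c : ℂ, ∃ q : ℂ → ℂ, Differentiable ℂ q ∧
      ∀ x : AddCircle (2 * π), (c * g x).re = (q ((r : ℂ) * (AddCircle.toCircle x : ℂ))).re)
      ?_ ?_ ?_ ?_ hg
    · rintro _ ⟨n, rfl⟩ c
      have key : ∀ (m : ℕ) (x : AddCircle (2 * π)),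
          (fourier (m : ℤ) x : ℂ) = ((r : ℂ) * (AddCircle.toCircle x : ℂ) / r) ^ m := by
        intro m x
        rw [fourier_apply, natCast_zsmul, AddCircle.toCircle_nsmul]
        rw [mul_div_assoc, mul_div_cancel₀]
        · simp
        · exact_mod_cast hr.ne'
      rcases Int.eq_nat_or_neg n with ⟨m, rfl | rfl⟩
      · refine ⟨fun z => c * (z / r) ^ m, by fun_prop, fun x => ?_⟩
        rw [key]
      · refine ⟨fun z => (starRingEnd ℂ) c * (z / r) ^ m, by fun_prop, fun x => ?_⟩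
        rw [fourier_neg]
        have k := key m x
        have e : (c * (starRingEnd ℂ) (fourier (m : ℤ) x)).re =
            ((starRingEnd ℂ) c * (fourier (m : ℤ) x)).re := by
          rw [← Complex.conj_re (c * (starRingEnd ℂ) (fourier (m : ℤ) x)), map_mul,
            Complex.conj_conj]
        rw [e, k]
    · intro c
      exact ⟨fun _ => 0, by fun_prop, fun x => by simp⟩
    · intro f g _ _ hf hg c
      obtain ⟨q₁, h₁, h₁'⟩ := hf c
      obtain ⟨q₂, h₂, h₂'⟩ := hg c
      refine ⟨fun z => q₁ z + q₂ z, h₁.add h₂, fun x => ?_⟩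
      rw [ContinuousMap.add_apply, mul_add, Complex.add_re, Complex.add_re, h₁', h₂']
    · intro a f _ hf c
      obtain ⟨q, h, h'⟩ := hf (c * a)
      refine ⟨q, h, fun x => ?_⟩
      rw [ContinuousMap.smul_apply, smul_eq_mul, ← mul_assoc, h']
  obtain ⟨q, hq, hq'⟩ := hP 1
  refine ⟨q, hq, fun z hz => ?_⟩
  obtain ⟨x, hx⟩ : ∃ x : AddCircle (2 * π), (r : ℂ) * (AddCircle.toCircle x : ℂ) = z := by
    have h1 : z / r ∈ sphere (0 : ℂ) 1 := by
      rw [mem_sphere_zero_iff_norm] at hz ⊢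
      rw [norm_div, Complex.norm_real, Real.norm_eq_abs, abs_of_pos hr, hz]
      exact div_self hr.ne'
    refine ⟨((Complex.arg (z / r) : ℝ) : AddCircle (2 * π)), ?_⟩
    rw [AddCircle.toCircle_apply_mk]
    have h3 : ((Circle.exp (2 * π / (2 * π) * (z / r).arg) : Circle) : ℂ) = z / r := by
      rw [div_self (by positivity), one_mul, Circle.coe_exp]
      have := Complex.norm_mul_exp_arg_mul_I (z / r)
      rw [mem_sphere_zero_iff_norm.1 h1] at this
      simpa using this
    rw [h3, mul_div_cancel₀]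
    exact_mod_cast hr.ne'
  have h1 : ‖U x - g x‖ < ε := by
    calc ‖U x - g x‖ = ‖(U - g) x‖ := by rw [ContinuousMap.sub_apply]
      _ ≤ ‖U - g‖ := ContinuousMap.norm_coe_le_norm _ _
      _ < ε := by rwa [← dist_eq_norm]
  have h2 : |(U x - g x).re| < ε := (Complex.abs_re_le_norm _).trans_lt h1
  have h3 : (U x).re = u z := by
    change ((u ((r : ℂ) * (AddCircle.toCircle x : ℂ)) : ℝ) : ℂ).re = u z
    rw [hx, Complex.ofReal_re]
  have h4 : (g x).re = (q z).re := by
    have := hq' x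
    rwa [one_mul, hx] at this
  rwa [Complex.sub_re, h3, h4] at h2

/-- global super-mean-value property -/
theorem circleAverage_le_of_locSuper {u : ℂ → ℝ} {r : ℝ} (hr : 0 < r)
    (hu : ContinuousOn u (closedBall 0 r)) (hloc : ∀ z ∈ ball (0 : ℂ) r, LocSuper u z) :
    circleAverage u 0 r ≤ u 0 := by
  refine le_of_forall_pos_le_add fun ε hε => ?_
  obtain ⟨q, hq, hq'⟩ := exists_re_approx hr (hu.mono sphere_subset_closedBall) (half_pos hε)
  have hqre : Continuous fun z => (q z).re := Complex.continuous_re.comp hq.continuous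
  have hmean : ∀ (z : ℂ) (t : ℝ), circleAverage (fun z => (q z).re) z t = (q z).re := by
    intro z t
    have h1 : DiffContOnCl ℂ q (ball z |t|) := hq.diffContOnCl
    have h2 := h1.circleAverage
    have h3 : CircleIntegrable q z t := (hq.continuous.continuousOn).circleIntegrable'
    have h4 := Complex.reCLM.circleAverage_comp_comm h3
    rw [h2] at h4
    exact h4
  -- `w = u - re q + ε/2` is nonnegative on the sphere
  have hw : ContinuousOn (fun z => u z - (q z).re + ε / 2) (closedBall 0 r) :=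
    (hu.sub hqre.continuousOn).add continuousOn_const
  have hnn := nonneg_of_locSuper hr hw (by
    intro z hz
    obtain ⟨ρ, hρ, hρ2⟩ := hloc z hz
    have h1 : 0 < r - ‖z‖ := sub_pos.2 (mem_ball_zero_iff.1 hz)
    refine ⟨min ρ (r - ‖z‖), lt_min hρ h1, fun t ht ht2 => ?_⟩
    have htρ : t < ρ := ht2.trans_le (min_le_left _ _)
    have htr : t < r - ‖z‖ := ht2.trans_le (min_le_right _ _)
    have hsub : sphere z |t| ⊆ closedBall (0 : ℂ) r := by
      intro w hw
      rw [mem_sphere_iff_norm, abs_of_pos ht] at hw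
      rw [mem_closedBall_zero_iff]
      calc ‖w‖ = ‖(w - z) + z‖ := by rw [sub_add_cancel]
        _ ≤ ‖w - z‖ + ‖z‖ := norm_add_le _ _
        _ ≤ r := by rw [hw]; linarith
    have hi1 : CircleIntegrable u z t := (hu.mono hsub).circleIntegrable'
    have hi2 : CircleIntegrable (fun z => (q z).re) z t :=
      (hqre.continuousOn).circleIntegrable'
    have hi3 : CircleIntegrable (fun _ : ℂ => ε / 2) z t :=
      (continuousOn_const).circleIntegrable'
    have hi4 : CircleIntegrable (fun z => u z - (q z).re) z t :=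
      ((hu.mono hsub).sub (hqre.continuousOn)).circleIntegrable'
    have e1 : circleAverage (fun z => u z - (q z).re + ε / 2) z t =
        circleAverage u z t - (q z).re + ε / 2 := by
      rw [circleAverage_fun_add hi4 hi3, circleAverage_fun_sub hi1 hi2, hmean, circleAverage_const]
    rw [e1]
    have := hρ2 t ht htρ
    linarith) (by
    intro z hz
    have := hq' z hz
    rw [abs_lt] at this
    linarith)
  have h0 : 0 ≤ u 0 - (q 0).re + ε / 2 := hnn 0 (mem_closedBall_self hr.le)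
  have hi1 : CircleIntegrable u 0 r :=
    (hu.mono (by rw [abs_of_pos hr]; exact sphere_subset_closedBall)).circleIntegrable'
  have hi2 : CircleIntegrable (fun z => (q z).re + ε / 2) 0 r :=
    ((hqre.add continuous_const).continuousOn).circleIntegrable'
  have h5 : circleAverage u 0 r ≤ circleAverage (fun z => (q z).re + ε / 2) 0 r := by
    refine circleAverage_mono hi1 hi2 fun z hz => ?_
    rw [abs_of_pos hr] at hz
    have := hq' z hz
    rw [abs_lt] at this
    linarith
  have h6 : circleAverage (fun z => (q z).re + ε / 2) 0 r = (q 0).re + ε / 2 := by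
    rw [circleAverage_fun_add ((hqre.continuousOn).circleIntegrable')
      ((continuousOn_const).circleIntegrable'), hmean, circleAverage_const]
  rw [h6] at h5
  linarith

end Pool.Agent.Lib.MP_1ae38f_an
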