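import Pool.Agent.Lib.MP_1ae38f_an.Params
import Pool.Agent.Lib.MP_1ae38f_an.SuperMean

set_option autoImplicit false

open Metric Set Real MeasureTheory Complex Filter Topology

namespace Pool.Agent.Lib.MP_1ae38f_an

/-- the part of the plane separated from the later cells by the `n`-th wall -/
def BB (n : ℕ) : Set ℂ := {z | z.re < RR (n + 1) ∧ hh (n + 1) < z.im}

/-- holomorphic function whose real part is large at the `n`-th gate -/
noncomputable def HH (n : ℕ) (z : ℂ) : ℂ := (4 * ep n : ℝ) / (gc n + (ep n : ℂ) - z)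

open Classical in
/-- superharmonic function attached to the `n`-th wall -/
noncomputable def sf (n : ℕ) (z : ℂ) : ℝ := if z ∈ BB n then min 1 (HH n z).re else 1

theorem den_re (n : ℕ) (z : ℂ) : (gc n + (ep n : ℂ) - z).re = RR (n + 1) + ep n - z.re := by
  simp [gc]

theorem den_ne {n : ℕ} {z : ℂ} (hz : z ∈ BB n) : gc n + (ep n : ℂ) - z ≠ 0 := by
  intro h
  have h1 := den_re n z
  rw [h, Complex.zero_re] at h1
  have := ep_pos n
  have := hz.1
  linarith

theorem HH_re_pos {n : ℕ} {z : ℂ} (hz : z ∈ BB n) : 0 < (HH n z).re := by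
  unfold HH
  rw [Complex.div_re, Complex.ofReal_re, Complex.ofReal_im, zero_mul, zero_div, add_zero, den_re]
  have h1 := ep_pos n
  have h2 := hz.1
  have h3 : 0 < Complex.normSq (gc n + (ep n : ℂ) - z) := Complex.normSq_pos.2 (den_ne hz)
  have : 0 < RR (n + 1) + ep n - z.re := by linarith
  positivity

theorem one_le_HH_re {n : ℕ} {z : ℂ} (hz : z ∈ BB n) (hz2 : z ∈ GG n) : 1 ≤ (HH n z).re := by
  unfold HH
  rw [Complex.div_re, Complex.ofReal_re, Complex.ofReal_im, zero_mul, zero_div, add_zero, den_re]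
  have h1 := ep_pos n
  have h2 := hz.1
  have h3 : 0 < Complex.normSq (gc n + (ep n : ℂ) - z) := Complex.normSq_pos.2 (den_ne hz)
  rw [le_div_iff₀ h3, one_mul, Complex.normSq_eq_norm_sq]
  have h4 : ‖z - gc n‖ < ep n := by rwa [← dist_eq_norm]
  have h5 : ‖gc n + (ep n : ℂ) - z‖ ≤ 2 * ep n := by
    calc ‖gc n + (ep n : ℂ) - z‖ = ‖(ep n : ℂ) - (z - gc n)‖ := by congr 1; ring
      _ ≤ ‖(ep n : ℂ)‖ + ‖z - gc n‖ := norm_sub_le _ _
      _ ≤ 2 * ep n := by
        rw [Complex.norm_real, Real.norm_eq_abs, abs_of_pos h1]; linarith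
  have h6 : 0 ≤ ‖gc n + (ep n : ℂ) - z‖ := norm_nonneg _
  nlinarith

theorem sf_nonneg (n : ℕ) (z : ℂ) : 0 ≤ sf n z := by
  unfold sf
  split_ifs with h
  · exact le_min zero_le_one (HH_re_pos h).le
  · exact zero_le_one

theorem sf_le_one (n : ℕ) (z : ℂ) : sf n z ≤ 1 := by
  unfold sf
  split_ifs with h
  · exact min_le_left _ _
  · exact le_rfl

/-- each of the pieces of `D1` is either on the far side of the `n`-th wall (where `sf n = 1`), or
inside `BB n` -/
theorem piece_cases (n : ℕ) {w : ℂ} (hw : w ∈ D1) :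
    ∃ K : Set ℂ, IsOpen K ∧ w ∈ K ∧ ((∀ z ∈ K, sf n z = 1) ∨ K ⊆ BB n) := by
  obtain ⟨m, hm⟩ := mem_iUnion.1 hw
  have key1 : ∀ {K : Set ℂ}, (∀ z ∈ K, z ∉ BB n) → (∀ z ∈ K, sf n z = 1) := by
    intro K h z hz
    unfold sf
    rw [if_neg (h z hz)]
  rcases lt_trichotomy m n with hmn | hmn | hmn
  · -- `m < n`
    have hR := RR_mono (Nat.succ_le_succ hmn.le)
    have hR2 := RR_lt_add (Nat.succ_lt_succ hmn)
    have hh1 := hh_anti (Nat.succ_le_succ hmn.le)
    simp only [Nat.succ_eq_add_one] at hR hR2 hh1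
    rcases hm with (h | h) | h
    · exact ⟨SS m, isOpen_SS m, h, Or.inr fun z hz => ⟨hz.1.2.trans_le hR, hh1.trans_lt hz.2.1⟩⟩
    · exact ⟨TT m, isOpen_TT m, h, Or.inr fun z hz => ⟨hz.1.2.trans_le hR, hh1.trans_lt hz.2.1⟩⟩
    · refine ⟨GG m, isOpen_GG m, h, Or.inr fun z hz => ?_⟩
      obtain ⟨h1, h2⟩ := mem_gc_re_im hz
      rw [abs_lt] at h1 h2
      have := ep_le m
      have := hh_le_one (n + 1)
      exact ⟨by linarith, by linarith⟩
  · subst hmn
    rcases hm with (h | h) | h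
    · exact ⟨SS m, isOpen_SS m, h, Or.inr fun z hz => ⟨hz.1.2, hz.2.1⟩⟩
    · exact ⟨TT m, isOpen_TT m, h, Or.inr fun z hz => ⟨hz.1.2, hz.2.1⟩⟩
    · refine ⟨GG m, isOpen_GG m, h, Or.inl fun z hz => ?_⟩
      unfold sf
      split_ifs with hB
      · exact min_eq_left (one_le_HH_re hB hz)
      · rfl
  · -- `n < m`
    have hR : RR (n + 1) ≤ RR m := RR_mono hmn
    have hR2 := RR_add_four_le m
    have hh1 : hh m ≤ hh (n + 1) := hh_anti hmn
    rcases hm with (h | h) | h
    · exact ⟨SS m, isOpen_SS m, h, Or.inl (key1 fun z hz hB => by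
        have := hz.2.2; have := hB.2; linarith)⟩
    · exact ⟨TT m, isOpen_TT m, h, Or.inl (key1 fun z hz hB => by
        have := hz.1.1; have := hB.1; linarith)⟩
    · refine ⟨GG m, isOpen_GG m, h, Or.inl (key1 fun z hz hB => ?_)⟩
      obtain ⟨h1, h2⟩ := mem_gc_re_im hz
      rw [abs_lt] at h1 h2
      have := ep_le m
      have := hB.1
      linarith

variable {f : ℂ → ℂ}

theorem differentiableAt_HH_comp {n : ℕ} {z : ℂ} (hf : DifferentiableAt ℂ f z)
    (hz : f z ∈ BB n) : DifferentiableAt ℂ (fun z => HH n (f z)) z := by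
  unfold HH
  exact (differentiableAt_const _).div ((differentiableAt_const _).sub hf) (den_ne hz)

theorem locSuper_sf_comp (hf : DifferentiableOn ℂ f (ball 0 1)) (hmap : MapsTo f (ball 0 1) D1)
    (n : ℕ) {z : ℂ} (hz : z ∈ ball (0 : ℂ) 1) :
    LocSuper (fun z => sf n (f z)) z ∧ ContinuousAt (fun z => sf n (f z)) z := by
  obtain ⟨K, hK, hzK, hK2⟩ := piece_cases n (hmap hz)
  have hfc : ContinuousAt f z := (hf.differentiableAt (isOpen_ball.mem_nhds hz)).continuousAt
  have hev : ∀ᶠ w in 𝓝 z, f w ∈ K ∧ w ∈ ball (0 : ℂ) 1 :=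
    (hfc.eventually (hK.mem_nhds hzK)).and (isOpen_ball.mem_nhds hz)
  obtain ⟨ρ, hρ, hρ2⟩ := Metric.eventually_nhds_iff_ball.1 hev
  have hcirc : ∀ t, 0 < t → t < ρ → sphere z |t| ⊆ ball z ρ := by
    intro t ht ht2 w hw
    rw [mem_sphere, abs_of_pos ht] at hw
    rw [mem_ball, hw]
    exact ht2
  rcases hK2 with h1 | hB
  · have h2 : ∀ w ∈ ball z ρ, sf n (f w) = 1 := fun w hw => h1 _ (hρ2 w hw).1
    constructor
    · refine ⟨ρ, hρ, fun t ht ht2 => ?_⟩
      have h3 : circleAverage (fun z => sf n (f z)) z t = circleAverage (fun _ => (1 : ℝ)) z t :=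
        circleAverage_congr_sphere fun w hw => h2 w (hcirc t ht ht2 hw)
      change circleAverage (fun z => sf n (f z)) z t ≤ sf n (f z)
      rw [h3, circleAverage_const, h2 z (mem_ball_self hρ)]
    · have h3 : (fun z => sf n (f z)) =ᶠ[𝓝 z] fun _ => (1 : ℝ) := by
        filter_upwards [ball_mem_nhds z hρ] with w hw using h2 w hw
      exact h3.continuousAt
  · have h2 : ∀ w ∈ ball z ρ, sf n (f w) = min 1 (HH n (f w)).re := by
      intro w hw
      unfold sf
      rw [if_pos (hB (hρ2 w hw).1)]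
    have hd : ∀ w ∈ ball z ρ, DifferentiableAt ℂ (fun z => HH n (f z)) w := fun w hw =>
      differentiableAt_HH_comp (hf.differentiableAt (isOpen_ball.mem_nhds (hρ2 w hw).2))
        (hB (hρ2 w hw).1)
    constructor
    · refine ⟨ρ, hρ, fun t ht ht2 => ?_⟩
      have hsub : closedBall z |t| ⊆ ball z ρ := by
        rw [abs_of_pos ht]; exact closedBall_subset_ball ht2
      have hcl : closure (ball z |t|) ⊆ ball z ρ := closure_ball_subset_closedBall.trans hsub
      have hD : DiffContOnCl ℂ (fun z => HH n (f z)) (ball z |t|) :=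
        DifferentiableOn.diffContOnCl fun w hw => (hd w (hcl hw)).differentiableWithinAt
      have hcont : ContinuousOn (fun z => HH n (f z)) (sphere z |t|) := fun w hw =>
        (hd w (hcirc t ht ht2 hw)).continuousAt.continuousWithinAt
      have hmean : circleAverage (fun z => (HH n (f z)).re) z t = (HH n (f z)).re := by
        have h4 := Complex.reCLM.circleAverage_comp_comm hcont.circleIntegrable'
        rw [hD.circleAverage] at h4
        exact h4
      have hcre : ContinuousOn (fun z => (HH n (f z)).re) (sphere z |t|) :=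
        Complex.continuous_re.comp_continuousOn hcont
      have hcmin : ContinuousOn (fun z => min 1 (HH n (f z)).re) (sphere z |t|) :=
        continuousOn_const.inf hcre
      have h3 : circleAverage (fun z => sf n (f z)) z t =
          circleAverage (fun z => min 1 (HH n (f z)).re) z t :=
        circleAverage_congr_sphere fun w hw => h2 w (hcirc t ht ht2 hw)
      change circleAverage (fun z => sf n (f z)) z t ≤ sf n (f z)
      rw [h3, h2 z (mem_ball_self hρ)]
      refine le_min ?_ ?_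
      · calc _ ≤ circleAverage (fun _ => (1 : ℝ)) z t :=
              circleAverage_mono hcmin.circleIntegrable'
                (continuousOn_const).circleIntegrable' fun w _ => min_le_left _ _
          _ = 1 := circleAverage_const _ _ _
      · calc _ ≤ circleAverage (fun z => (HH n (f z)).re) z t :=
              circleAverage_mono hcmin.circleIntegrable'
                hcre.circleIntegrable' fun w _ => min_le_right _ _
          _ = _ := hmean
    · have h3 : (fun z => sf n (f z)) =ᶠ[𝓝 z] fun z => min 1 (HH n (f z)).re := by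
        filter_upwards [ball_mem_nhds z hρ] with w hw using h2 w hw
      refine ContinuousAt.congr ?_ h3.symm
      exact continuousAt_const.inf
        (Complex.continuous_re.continuousAt.comp (hd z (mem_ball_self hρ)).continuousAt)

theorem circleAverage_sf_le (hf : DifferentiableOn ℂ f (ball 0 1))
    (hmap : MapsTo f (ball 0 1) D1) (n : ℕ) {r : ℝ} (hr : 0 < r) (hr1 : r < 1) :
    circleAverage (fun z => sf n (f z)) 0 r ≤ sf n (f 0) := by
  have hsub : closedBall (0 : ℂ) r ⊆ ball 0 1 := closedBall_subset_ball hr1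
  exact circleAverage_le_of_locSuper (u := fun z => sf n (f z)) hr
    (fun z hz => (locSuper_sf_comp hf hmap n (hsub hz)).2.continuousWithinAt)
    (fun z hz => (locSuper_sf_comp hf hmap n (hsub (ball_subset_closedBall hz))).1)

/-- norm bound on the `n`-th cell -/
theorem norm_le_of_mem_cell {n : ℕ} {z : ℂ} (hz : z ∈ SS n ∪ TT n ∪ GG n) :
    ‖z‖ ≤ 3 * RR (n + 1) := by
  have hR := four_le_RR (n + 1)
  have hR0 := four_le_RR n
  have hh1 := hh_le_one n
  have hh0 := hh_pos (n + 1)
  have key : |z.re| ≤ RR (n + 1) + 1 → |z.im| ≤ RR (n + 1) → ‖z‖ ≤ 3 * RR (n + 1) := by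
    intro h1 h2
    have := Complex.norm_le_abs_re_add_abs_im z
    linarith
  rcases hz with (h | h) | h
  · refine key (abs_le.2 ⟨?_, ?_⟩) (abs_le.2 ⟨?_, ?_⟩)
    · have := h.1.1; linarith
    · have := h.1.2; linarith
    · have := h.2.1; linarith
    · have := h.2.2; linarith
  · refine key (abs_le.2 ⟨?_, ?_⟩) (abs_le.2 ⟨?_, ?_⟩)
    · have := h.1.1; linarith
    · have := h.1.2; linarith
    · have := h.2.1; linarith
    · have := h.2.2; linarith
  · obtain ⟨h1, h2⟩ := mem_gc_re_im h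
    rw [abs_lt] at h1 h2
    have := ep_le n
    refine key (abs_le.2 ⟨?_, ?_⟩) (abs_le.2 ⟨?_, ?_⟩) <;> linarith

theorem sf_eq_one_of_mem_cell {n m : ℕ} (h : n < m) {z : ℂ} (hz : z ∈ SS m ∪ TT m ∪ GG m) :
    sf n z = 1 := by
  have hR : RR (n + 1) ≤ RR m := RR_mono h
  have hR2 := RR_add_four_le m
  have hh1 : hh m ≤ hh (n + 1) := hh_anti h
  unfold sf
  rw [if_neg]
  intro hB
  rcases hz with (h | h) | h
  · have := h.2.2; have := hB.2; linarith
  · have := h.1.1; have := hB.1; linarith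
  · obtain ⟨h1, h2⟩ := mem_gc_re_im h
    rw [abs_lt] at h1 h2
    have := ep_le m
    have := hB.1
    linarith

theorem sf_le_of_mem_cell {n m : ℕ} (h : m < n) {z : ℂ} (hz : z ∈ SS m ∪ TT m ∪ GG m) :
    sf n z ≤ 4 * ep n := by
  have hR := RR_mono (Nat.succ_le_succ h.le)
  have hR2 := RR_lt_add (Nat.succ_lt_succ h)
  have hh1 := hh_anti (Nat.succ_le_succ h.le)
  simp only [Nat.succ_eq_add_one] at hR hR2 hh1
  have hem := ep_le m
  have hen := ep_pos n
  have hz1 : z.re ≤ RR (m + 1) + 1 ∧ hh (n + 1) < z.im := by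
    rcases hz with (h | h) | h
    · have := h.2.1; have := h.1.2; exact ⟨by linarith, by linarith⟩
    · have := h.2.1; have := h.1.2; exact ⟨by linarith, by linarith⟩
    · obtain ⟨h1, h2⟩ := mem_gc_re_im h
      rw [abs_lt] at h1 h2
      have := hh_le_one (n + 1)
      exact ⟨by linarith, by linarith⟩
  have hB : z ∈ BB n := ⟨by linarith [hz1.1], hz1.2⟩
  unfold sf
  rw [if_pos hB]
  refine (min_le_right _ _).trans ((Complex.re_le_norm _).trans ?_)
  unfold HH
  rw [norm_div, Complex.norm_real, Real.norm_eq_abs, abs_of_pos (by positivity)]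
  refine div_le_self (by positivity) ?_
  calc (1 : ℝ) ≤ (gc n + (ep n : ℂ) - z).re := by rw [den_re]; linarith [hz1.1]
    _ ≤ _ := Complex.re_le_norm _

/-- cells are open -/
theorem isOpen_cell (n : ℕ) : IsOpen (SS n ∪ TT n ∪ GG n) :=
  ((isOpen_SS n).union (isOpen_TT n)).union (isOpen_GG n)

theorem MM_pos (n : ℕ) : 0 < MM n := zero_lt_one.trans_le (one_le_MM n)

theorem summable_MM_sf {w : ℂ} (hw : w ∈ D1) : Summable fun n => MM n * sf n w := by
  obtain ⟨k₀, hk₀⟩ := mem_iUnion.1 hw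
  rw [← summable_nat_add_iff (k₀ + 1)]
  refine Summable.of_nonneg_of_le (fun n => mul_nonneg (MM_pos _).le (sf_nonneg _ _)) (fun n => ?_)
    ((summable_nat_add_iff (k₀ + 1)).2 (summable_geometric_of_lt_one (r := (1 / 2 : ℝ))
      (by norm_num) (by norm_num)))
  calc MM (n + (k₀ + 1)) * sf (n + (k₀ + 1)) w
      ≤ MM (n + (k₀ + 1)) * (4 * ep (n + (k₀ + 1))) :=
        mul_le_mul_of_nonneg_left (sf_le_of_mem_cell (by omega) hk₀) (MM_pos _).le
    _ = (1 / 2 : ℝ) ^ (n + (k₀ + 1)) := MM_mul_ep _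

/-- pointwise majorant of `‖w‖ ^ p` on the cells with index less than `m`. -/
theorem norm_rpow_le_majorant {p : ℝ} (hp : 0 < p) {m k : ℕ} (hkm : k < m) {w : ℂ}
    (hw : w ∈ SS k ∪ TT k ∪ GG k) :
    ‖w‖ ^ p ≤ (3 * RR (⌈p⌉₊ + 1)) ^ p + ∑ n ∈ Finset.range m, MM n * sf n w := by
  have hR4 := four_le_RR (⌈p⌉₊ + 1)
  have hnn : ∀ n ∈ Finset.range m, 0 ≤ MM n * sf n w := fun n _ =>
    mul_nonneg (MM_pos _).le (sf_nonneg _ _)
  rcases le_or_gt k ⌈p⌉₊ with hk | hk
  · have h1 : ‖w‖ ≤ 3 * RR (⌈p⌉₊ + 1) := by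
      have := norm_le_of_mem_cell hw
      have := RR_mono (Nat.succ_le_succ hk)
      simp only [Nat.succ_eq_add_one] at this
      linarith
    have h2 : ‖w‖ ^ p ≤ (3 * RR (⌈p⌉₊ + 1)) ^ p :=
      Real.rpow_le_rpow (norm_nonneg _) h1 hp.le
    have := Finset.sum_nonneg hnn
    linarith
  · obtain ⟨j, rfl⟩ : ∃ j, k = j + 1 := ⟨k - 1, by omega⟩
    have h1 : ‖w‖ ≤ 3 * RR (j + 2) := norm_le_of_mem_cell hw
    have h4 := four_le_RR (j + 2)
    have h2 : ‖w‖ ^ p ≤ MM j := by
      calc ‖w‖ ^ p ≤ (3 * RR (j + 2)) ^ p := Real.rpow_le_rpow (norm_nonneg _) h1 hp.le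
        _ ≤ (3 * RR (j + 2)) ^ ((j + 1 : ℕ) : ℝ) := by
          refine Real.rpow_le_rpow_of_exponent_le (by linarith) ?_
          calc p ≤ (⌈p⌉₊ : ℝ) := Nat.le_ceil p
            _ ≤ ((j + 1 : ℕ) : ℝ) := by exact_mod_cast hk.le
        _ = MM j := by rw [Real.rpow_natCast]; rfl
    have h3 : sf j w = 1 := sf_eq_one_of_mem_cell (Nat.lt_succ_self j) hw
    have h5 : MM j * sf j w ≤ ∑ n ∈ Finset.range m, MM n * sf n w :=
      Finset.single_le_sum hnn (Finset.mem_range.2 (by omega))
    rw [h3, mul_one] at h5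
    have h6 : 0 ≤ (3 * RR (⌈p⌉₊ + 1)) ^ p := Real.rpow_nonneg (by linarith) _
    linarith

/-- Every holomorphic map from the disk into `D1` belongs to all Hardy spaces. -/
theorem memHardy_of_mapsTo_D1 (hf : DifferentiableOn ℂ f (ball 0 1))
    (hmap : MapsTo f (ball 0 1) D1) {p : ℝ} (hp : 0 < p) : MemHardy p f := by
  have h0 : f 0 ∈ D1 := hmap (mem_ball_self one_pos)
  have hsum := summable_MM_sf h0
  refine ⟨hf, 2 * π * ((3 * RR (⌈p⌉₊ + 1)) ^ p + ∑' n, MM n * sf n (f 0)), fun r hr hr1 => ?_⟩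
  have hsub : closedBall (0 : ℂ) r ⊆ ball 0 1 := closedBall_subset_ball hr1
  have hfc : ContinuousOn f (closedBall 0 r) := hf.continuousOn.mono hsub
  -- finitely many cells
  obtain ⟨m, hm⟩ : ∃ m : ℕ, ∀ z ∈ closedBall (0 : ℂ) r, ∃ k < m, f z ∈ SS k ∪ TT k ∪ GG k := by
    have hK : IsCompact (f '' closedBall 0 r) := (isCompact_closedBall 0 r).image_of_continuousOn hfc
    obtain ⟨t, ht⟩ := hK.elim_finite_subcover (fun n => SS n ∪ TT n ∪ GG n) isOpen_cell
      (by rintro _ ⟨z, hz, rfl⟩; exact hmap (hsub hz))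
    refine ⟨t.sup id + 1, fun z hz => ?_⟩
    obtain ⟨k, hk, hk2⟩ := mem_iUnion₂.1 (ht (mem_image_of_mem f hz))
    exact ⟨k, Nat.lt_succ_of_le (Finset.le_sup (f := id) hk), hk2⟩
  have hsph : sphere (0 : ℂ) |r| ⊆ closedBall 0 r := by
    rw [abs_of_pos hr]; exact sphere_subset_closedBall
  have hc1 : ContinuousOn (fun z => ‖f z‖ ^ p) (sphere (0 : ℂ) |r|) :=
    ((hfc.mono hsph).norm).rpow_const fun z _ => Or.inr hp.le
  have hc2 : ∀ n, ContinuousOn (fun z => MM n * sf n (f z)) (sphere (0 : ℂ) |r|) := fun n z hz =>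
    (continuousAt_const.mul (locSuper_sf_comp hf hmap n (hsub (hsph hz))).2).continuousWithinAt
  have hc3 : ContinuousOn (fun z => ∑ n ∈ Finset.range m, MM n * sf n (f z))
      (sphere (0 : ℂ) |r|) := continuousOn_finsetSum _ fun n _ => hc2 n
  have hav : circleAverage (fun z => ‖f z‖ ^ p) 0 r ≤
      (3 * RR (⌈p⌉₊ + 1)) ^ p + ∑' n, MM n * sf n (f 0) := by
    calc circleAverage (fun z => ‖f z‖ ^ p) 0 r
        ≤ circleAverage (fun z => (3 * RR (⌈p⌉₊ + 1)) ^ p +
            ∑ n ∈ Finset.range m, MM n * sf n (f z)) 0 r := by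
          refine circleAverage_mono hc1.circleIntegrable'
            (continuousOn_const.add hc3).circleIntegrable' fun z hz => ?_
          obtain ⟨k, hk, hk2⟩ := hm z (hsph hz)
          exact norm_rpow_le_majorant hp hk hk2
      _ = (3 * RR (⌈p⌉₊ + 1)) ^ p + ∑ n ∈ Finset.range m,
            circleAverage (fun z => MM n * sf n (f z)) 0 r := by
          rw [circleAverage_fun_add (continuousOn_const).circleIntegrable' hc3.circleIntegrable',
            circleAverage_const]
          congr 1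
          exact circleAverage_fun_sum fun n _ => (hc2 n).circleIntegrable'
      _ ≤ (3 * RR (⌈p⌉₊ + 1)) ^ p + ∑ n ∈ Finset.range m, MM n * sf n (f 0) := by
          gcongr with n hn
          have h1 : circleAverage (fun z => MM n * sf n (f z)) 0 r =
              MM n * circleAverage (fun z => sf n (f z)) 0 r := by
            have := circleAverage_smul (a := MM n) (f := fun z => sf n (f z)) (c := 0) (R := r)
            simpa [Pi.smul_def] using this
          rw [h1]
          exact mul_le_mul_of_nonneg_left (circleAverage_sf_le hf hmap n hr hr1) (MM_pos n).le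
      _ ≤ _ := by
          gcongr
          exact hsum.sum_le_tsum _ fun n _ => mul_nonneg (MM_pos _).le (sf_nonneg _ _)
  rw [circleAverage_def, smul_eq_mul] at hav
  have h7 : 0 < 2 * π := by positivity
  rw [inv_mul_le_iff₀ h7] at hav
  refine le_trans (le_of_eq ?_) hav
  refine intervalIntegral.integral_congr fun θ _ => ?_
  simp [circleMap]

end Pool.Agent.Lib.MP_1ae38f_an
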