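import Pool.Agent.Lib.MP_1ae38f_an.FunD2

set_option autoImplicit false

open Metric Set Real MeasureTheory Complex Filter Topology

namespace Pool.Agent.Lib.MP_1ae38f_an

theorem far_of_near_aux {m n : ℕ} (h : m < n) : 3 / 8 * hh m ≤ yy m - yy n := by
  have h1 : hh n ≤ hh (m + 1) := hh_anti h
  rw [hh_succ] at h1
  unfold yy
  linarith

theorem far_of_near {m n : ℕ} (hmn : m ≠ n) {z : ℂ} (h : ‖xi n - z‖ < rh n) :
    rh m ≤ ‖xi m - z‖ := by
  have h1 : |yy m - yy n| ≤ ‖xi m - xi n‖ := by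
    have := Complex.abs_im_le_norm (xi m - xi n)
    rwa [Complex.sub_im, xi_im, xi_im] at this
  have h2 : ‖xi m - xi n‖ ≤ ‖xi m - z‖ + ‖xi n - z‖ := by
    calc ‖xi m - xi n‖ = ‖(xi m - z) - (xi n - z)‖ := by congr 1; ring
      _ ≤ _ := norm_sub_le _ _
  rw [rh_eq] at h ⊢
  rcases lt_or_gt_of_ne hmn with h3 | h3
  · have h4 := far_of_near_aux h3
    have h5 := hh_anti h3.le
    have h6 := hh_pos m
    have := le_abs_self (yy m - yy n)
    linarith
  · have h4 := far_of_near_aux h3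
    have h5 := hh_anti h3.le
    have h6 := hh_pos n
    have := neg_le_abs (yy m - yy n)
    linarith

theorem hasSum_hh_div (c : ℝ) : HasSum (fun n => hh n / 3072 * c) (2 / 3072 * c) := by
  have h : HasSum hh 2 := hasSum_geometric_two
  exact (h.div_const 3072).mul_right c

theorem norm_FF_of_far {z : ℂ} (hz : ‖z‖ < 1) (h : ∀ n, rh n ≤ ‖xi n - z‖) : ‖FF z‖ < 2 := by
  have h1 : ‖∑' n : ℕ, (Gf n z - Gf n 1)‖ ≤ 2 / 3072 * ‖z - 1‖ :=
    tsum_of_norm_bounded (hasSum_hh_div _) fun n => norm_Gf_sub_one_le_of_far hz.le (h n)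
  have h2 : ‖z - 1‖ ≤ 2 := by
    calc ‖z - 1‖ ≤ ‖z‖ + ‖(1 : ℂ)‖ := norm_sub_le _ _
      _ ≤ 2 := by rw [norm_one]; linarith
  unfold FF
  calc _ ≤ ‖z‖ + ‖∑' n : ℕ, (Gf n z - Gf n 1)‖ := norm_add_le _ _
    _ < 2 := by linarith

theorem norm_Gf_one_le (n : ℕ) : ‖Gf n 1‖ ≤ hh n / 1000 := by
  have h1 : (1 : ℝ) ≤ (WW n 1).re := one_le_WW_re (by simp)
  have h2 := norm_WW_sub_one (n := n) 1
  have h3 := norm_den_one_ge n
  have hh0 := hh_pos n
  have hh1 := hh_le_one n
  have ha := aa_pos n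
  have hb := bb_pos n
  have hb2 := bb_le n
  have haa := aa_eq n
  have h4 : ‖WW n 1 - 1‖ ≤ hh n / 3072 := by
    rw [h2, div_le_iff₀ (by linarith), et_eq]
    nlinarith
  have h5 : ‖Complex.log (WW n 1)‖ ≤ hh n / 3072 := by
    have := norm_log_sub_log_le h1 (w' := 1) (by simp)
    rw [Complex.log_one, sub_zero] at this
    exact this.trans h4
  have h6 : ‖WW n 1‖ ≤ 2 := by
    calc ‖WW n 1‖ = ‖(WW n 1 - 1) + 1‖ := by rw [sub_add_cancel]
      _ ≤ ‖WW n 1 - 1‖ + ‖(1 : ℂ)‖ := norm_add_le _ _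
      _ ≤ 2 := by rw [norm_one]; linarith
  have h7 : ‖Ef (WW n 1)‖ ≤ 2 := (norm_Ef_le h1).2.trans h6
  unfold Gf
  calc _ ≤ ‖(aa n : ℂ) * Complex.log (WW n 1)‖ + ‖(bb n : ℂ) * Ef (WW n 1)‖ := norm_add_le _ _
    _ = aa n * ‖Complex.log (WW n 1)‖ + bb n * ‖Ef (WW n 1)‖ := by
        rw [norm_mul, norm_mul, Complex.norm_real, Complex.norm_real, Real.norm_eq_abs,
          Real.norm_eq_abs, abs_of_pos ha, abs_of_pos hb]
    _ ≤ aa n * (hh n / 3072) + bb n * 2 := by gcongr
    _ ≤ hh n / 1000 := by nlinarith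

/-- near `xi n`, the function is `xi n + Gf n z` up to a small error -/
theorem norm_FF_sub_le {n : ℕ} {z : ℂ} (hz : ‖z‖ < 1) (h : ‖xi n - z‖ < rh n) :
    ‖FF z - xi n - Gf n z‖ ≤ hh n / 20 := by
  have h1 : ‖∑' m : ℕ, (if m = n then 0 else (Gf m z - Gf m 1))‖ ≤ 2 / 3072 * ‖z - 1‖ := by
    refine tsum_of_norm_bounded (hasSum_hh_div _) fun m => ?_
    by_cases hm : m = n
    · rw [if_pos hm, norm_zero]
      have := hh_pos m
      positivity
    · rw [if_neg hm]
      exact norm_Gf_sub_one_le_of_far hz.le (far_of_near hm h)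
  have h2 : FF z - xi n - Gf n z = (z - xi n) - Gf n 1 +
      ∑' m : ℕ, (if m = n then 0 else (Gf m z - Gf m 1)) := by
    unfold FF
    rw [(summable_Gf hz).tsum_eq_add_tsum_ite n]
    ring
  have hh0 := hh_pos n
  have h3 : ‖z - 1‖ ≤ 2 * hh n := by
    calc ‖z - 1‖ = ‖(xi n - 1) - (xi n - z)‖ := by congr 1; ring
      _ ≤ ‖xi n - 1‖ + ‖xi n - z‖ := norm_sub_le _ _
      _ ≤ 2 * hh n := by
        have := norm_xi_sub_one_le n
        rw [rh_eq] at h
        unfold yy at this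
        linarith
  have h4 : ‖z - xi n‖ < rh n := by rwa [norm_sub_rev]
  have h5 := norm_Gf_one_le n
  rw [h2]
  calc _ ≤ ‖(z - xi n) - Gf n 1‖ + ‖∑' m : ℕ, (if m = n then 0 else (Gf m z - Gf m 1))‖ :=
        norm_add_le _ _
    _ ≤ ‖z - xi n‖ + ‖Gf n 1‖ + 2 / 3072 * ‖z - 1‖ := by
        gcongr
        exact norm_sub_le _ _
    _ ≤ hh n / 20 := by
        rw [rh_eq] at h4
        linarith

theorem abs_log_im_le {w : ℂ} (hw : 1 ≤ w.re) :
    -(π / 2) < (Complex.log w).im ∧ (Complex.log w).im < π / 2 := by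
  rw [Complex.log_im]
  have := Complex.abs_arg_lt_pi_div_two_iff.2 (Or.inl (zero_lt_one.trans_le hw))
  exact abs_lt.1 this

theorem Ef_re_im {w : ℂ} (hw : 1 ≤ w.re) :
    0 ≤ (Ef w).re ∧ Real.exp ((Complex.log w).re / 2) * Real.sin (π / 4 + (Complex.log w).im / 2)
      = (Ef w).im ∧ 0 ≤ (Ef w).im := by
  obtain ⟨h1, h2⟩ := abs_log_im_le hw
  have hpi := Real.pi_pos
  have e1 : ((π / 4 : ℝ) * Complex.I + Complex.log w / 2 : ℂ).re = (Complex.log w).re / 2 := by
    simp
  have e2 : ((π / 4 : ℝ) * Complex.I + Complex.log w / 2 : ℂ).im =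
      π / 4 + (Complex.log w).im / 2 := by
    simp
  have hs : 0 ≤ Real.sin (π / 4 + (Complex.log w).im / 2) :=
    Real.sin_nonneg_of_nonneg_of_le_pi (by linarith) (by linarith)
  have hc : 0 ≤ Real.cos (π / 4 + (Complex.log w).im / 2) :=
    Real.cos_nonneg_of_neg_pi_div_two_le_of_le (by linarith) (by linarith)
  unfold Ef
  rw [Complex.exp_re, Complex.exp_im, e1, e2]
  exact ⟨mul_nonneg (Real.exp_pos _).le hc, rfl, mul_nonneg (Real.exp_pos _).le hs⟩

theorem Gf_re_im {n : ℕ} {z : ℂ} (hz : ‖z‖ ≤ 1) :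
    aa n * (Complex.log (WW n z)).re ≤ (Gf n z).re ∧ -(2 * aa n) ≤ (Gf n z).im ∧
      (Gf n z).im ≤ 2 * aa n + bb n * Real.exp ((Complex.log (WW n z)).re / 2) := by
  have hw := one_le_WW_re (n := n) hz
  obtain ⟨h1, h2⟩ := abs_log_im_le hw
  obtain ⟨h3, -, h5⟩ := Ef_re_im hw
  have ha := aa_pos n
  have hb := bb_pos n
  have hpi := Real.pi_le_four
  have e1 : (Gf n z).re = aa n * (Complex.log (WW n z)).re + bb n * (Ef (WW n z)).re := by
    unfold Gf
    rw [Complex.add_re, Complex.re_ofReal_mul, Complex.re_ofReal_mul]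
  have e2 : (Gf n z).im = aa n * (Complex.log (WW n z)).im + bb n * (Ef (WW n z)).im := by
    unfold Gf
    rw [Complex.add_im, Complex.im_ofReal_mul, Complex.im_ofReal_mul]
  have h6 : (Ef (WW n z)).im ≤ Real.exp ((Complex.log (WW n z)).re / 2) := by
    rw [← norm_exp_half_log]
    exact (le_abs_self _).trans (Complex.abs_im_le_norm _)
  rw [e1, e2]
  refine ⟨?_, ?_, ?_⟩
  · have := mul_nonneg hb.le h3
    linarith
  · have := mul_nonneg hb.le h5
    nlinarith
  · have := mul_le_mul_of_nonneg_left h6 hb.le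
    nlinarith

theorem norm_Gf_le {n : ℕ} {z : ℂ} (hz : ‖z‖ ≤ 1) : ‖Gf n z‖ ≤ 1 + 1 / de n := by
  have hw := one_le_WW_re (n := n) hz
  have ha := aa_pos n
  have hb := bb_pos n
  have hb2 := bb_le n
  have haa := aa_eq n
  have hh1 := hh_le_one n
  have hd := de_pos n
  have het : et n ≤ 1 := by rw [et_eq]; have := hh_pos n; nlinarith
  have h4 : ‖WW n z - 1‖ ≤ 1 / de n := by
    rw [norm_WW_sub_one]
    have := et_pos n
    gcongr
    exact de_le_norm_den hz
  have h5 : ‖Complex.log (WW n z)‖ ≤ 1 / de n := by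
    have := norm_log_sub_log_le hw (w' := 1) (by simp)
    rw [Complex.log_one, sub_zero] at this
    exact this.trans h4
  have h6 : ‖WW n z‖ ≤ 1 + 1 / de n := by
    calc ‖WW n z‖ = ‖1 + (WW n z - 1)‖ := by congr 1; ring
      _ ≤ ‖(1 : ℂ)‖ + ‖WW n z - 1‖ := norm_add_le _ _
      _ ≤ _ := by rw [norm_one]; linarith
  have h7 : ‖Ef (WW n z)‖ ≤ 1 + 1 / de n := (norm_Ef_le hw).2.trans h6
  have h8 : 0 < 1 / de n := by positivity
  unfold Gf
  calc _ ≤ ‖(aa n : ℂ) * Complex.log (WW n z)‖ + ‖(bb n : ℂ) * Ef (WW n z)‖ := norm_add_le _ _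
    _ = aa n * ‖Complex.log (WW n z)‖ + bb n * ‖Ef (WW n z)‖ := by
        rw [norm_mul, norm_mul, Complex.norm_real, Complex.norm_real, Real.norm_eq_abs,
          Real.norm_eq_abs, abs_of_pos ha, abs_of_pos hb]
    _ ≤ aa n * (1 / de n) + bb n * (1 + 1 / de n) := by gcongr
    _ ≤ 1 + 1 / de n := by nlinarith

theorem lt_aa_mul_of_lt {n : ℕ} {s : ℝ} (h : aa n < bb n * Real.exp (s / 2)) :
    RR n + 3 < aa n * s := by
  have ha := aa_pos n
  have hbe : bb n = aa n * Real.exp (-(RR n + 3) / (2 * aa n)) := rfl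
  rw [hbe, mul_assoc, ← Real.exp_add] at h
  have h1 : 1 < Real.exp (-(RR n + 3) / (2 * aa n) + s / 2) := by
    by_contra hcon
    push Not at hcon
    have := mul_le_mul_of_nonneg_left hcon ha.le
    linarith
  rw [Real.one_lt_exp_iff] at h1
  have h2 : -(RR n + 3) / (2 * aa n) + s / 2 = (aa n * s - (RR n + 3)) / (2 * aa n) := by
    field_simp
    ring
  rw [h2] at h1
  have h3 := (div_pos_iff_of_pos_right (by positivity : 0 < 2 * aa n)).1 h1
  linarith

theorem FF_mem_of_near {n : ℕ} {z : ℂ} (hz : ‖z‖ < 1) (h : ‖xi n - z‖ < rh n) : FF z ∈ D1 := by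
  refine mem_iUnion.2 ⟨n, Or.inl ?_⟩
  have h1 := norm_FF_sub_le hz h
  set e := FF z - xi n - Gf n z with he
  have hF : FF z = xi n + Gf n z + e := by rw [he]; ring
  have hre : (FF z).re = (xi n).re + (Gf n z).re + e.re := by
    rw [hF, Complex.add_re, Complex.add_re]
  have him : (FF z).im = yy n + (Gf n z).im + e.im := by
    rw [hF, Complex.add_im, Complex.add_im, xi_im]
  have her := (Complex.abs_re_le_norm e).trans h1
  have hei := (Complex.abs_im_le_norm e).trans h1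
  rw [abs_le] at her hei
  obtain ⟨g1, g2, g3⟩ := Gf_re_im (n := n) hz.le
  have g4 := norm_Gf_le (n := n) hz.le
  have hw := one_le_WW_re (n := n) hz.le
  have hs : 0 ≤ (Complex.log (WW n z)).re := by
    rw [Complex.log_re]
    exact Real.log_nonneg (hw.trans (Complex.re_le_norm _))
  set s := (Complex.log (WW n z)).re with hsdef
  have ha := aa_pos n
  have haa := aa_eq n
  have hh0 := hh_pos n
  have hh1 := hh_le_one n
  have hh2 := hh_succ n
  have hR := four_le_RR n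
  have hyy : yy n = 3 / 4 * hh n := rfl
  obtain ⟨x1, -⟩ := xi_re_ge n
  have has : 0 ≤ aa n * s := mul_nonneg ha.le hs
  have hnorm : ‖FF z‖ < RR (n + 1) := by
    rw [RR_succ]
    calc ‖FF z‖ ≤ ‖xi n‖ + ‖Gf n z‖ + ‖e‖ := by
          rw [hF]; exact (norm_add_le _ _).trans (by gcongr; exact norm_add_le _ _)
      _ < RR n + 4 + 1 / de n := by rw [norm_xi]; linarith
  have hrelt : (FF z).re < RR (n + 1) := (Complex.re_le_norm _).trans_lt hnorm
  have himlt : (FF z).im < RR (n + 1) := (Complex.im_le_norm _).trans_lt hnorm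
  rcases le_or_gt (bb n * Real.exp (s / 2)) (aa n) with hcase | hcase
  · left
    refine ⟨⟨?_, hrelt⟩, ⟨?_, ?_⟩⟩
    · rw [hre]; linarith
    · rw [him]; linarith
    · rw [him]; linarith
  · right
    have := lt_aa_mul_of_lt hcase
    refine ⟨⟨?_, hrelt⟩, ⟨?_, himlt⟩⟩
    · rw [hre]; linarith
    · rw [him]; linarith

theorem mapsTo_FF : MapsTo FF (ball 0 1) D2 := by
  intro z hz
  rw [mem_ball_zero_iff] at hz
  by_cases h : ∀ n, rh n ≤ ‖xi n - z‖
  · exact Or.inr (mem_ball_zero_iff.2 (norm_FF_of_far hz h))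
  · push Not at h
    obtain ⟨n, hn⟩ := h
    exact Or.inl (FF_mem_of_near hz hn)

theorem FF_mem_Hol : FF ∈ Hol D2 := ⟨differentiableOn_FF, mapsTo_FF⟩

/-- the points where `FF` is large -/
noncomputable def zz (n : ℕ) : ℂ := (1 - de n : ℝ) * xi n

theorem tt_le (n : ℕ) : tt n ≤ hh n / 64 := by
  have hb := bb_le n
  have hb0 := bb_pos n
  have haa := aa_eq n
  have hh0 := hh_pos n
  have hh1 := hh_le_one n
  have he : et n ≤ 1 := by rw [et_eq]; nlinarith
  have he0 := et_pos n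
  change bb n * et n / 2 ≤ hh n / 64
  nlinarith

theorem de_le_tt (n : ℕ) : de n ≤ tt n := by
  have h0 := tt_pos n
  have h1 := tt_le n
  have h2 := hh_le_one n
  unfold de
  calc tt n ^ 4 = tt n * tt n ^ 3 := by ring
    _ ≤ tt n * 1 := by
      gcongr
      exact pow_le_one₀ h0.le (by linarith)
    _ = tt n := mul_one _

theorem norm_zz (n : ℕ) : ‖zz n‖ = 1 - de n := by
  have h1 := de_le_tt n
  have h2 := tt_le n
  have h3 := hh_le_one n
  unfold zz
  rw [norm_mul, norm_xi, mul_one, Complex.norm_real, Real.norm_eq_abs, abs_of_nonneg (by linarith)]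

theorem norm_xi_sub_zz (n : ℕ) : ‖xi n - zz n‖ = de n := by
  have h : xi n - zz n = (de n : ℂ) * xi n := by unfold zz; push_cast; ring
  rw [h, norm_mul, norm_xi, mul_one, Complex.norm_real, Real.norm_eq_abs, abs_of_pos (de_pos n)]

theorem den_zz (n : ℕ) : den n (zz n) = ((2 * de n : ℝ) : ℂ) := by
  have h3 : (starRingEnd ℂ) (xi n) * xi n = 1 := by
    rw [mul_comm, Complex.mul_conj, Complex.normSq_eq_norm_sq, norm_xi]; norm_num
  unfold den zz
  calc 1 + (de n : ℂ) - (starRingEnd ℂ) (xi n) * (((1 - de n : ℝ) : ℂ) * xi n)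
      = 1 + (de n : ℂ) - ((1 - de n : ℝ) : ℂ) * ((starRingEnd ℂ) (xi n) * xi n) := by ring
    _ = _ := by rw [h3]; push_cast; ring

theorem one_div_tt_le (n : ℕ) : 1 / tt n ≤ ‖FF (zz n)‖ := by
  have hd := de_pos n
  have h1 := de_le_tt n
  have h2 := tt_le n
  have hh0 := hh_pos n
  have hh1 := hh_le_one n
  have hlt : ‖zz n‖ < 1 := by rw [norm_zz]; linarith
  have hnear : ‖xi n - zz n‖ < rh n := by rw [norm_xi_sub_zz, rh_eq]; linarith
  have h3 := norm_FF_sub_le hlt hnear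
  have hw : WW n (zz n) = ((1 + et n / (2 * de n) : ℝ) : ℂ) := by
    unfold WW; rw [den_zz]; push_cast; ring
  have het := et_pos n
  have hw1 : 1 ≤ (WW n (zz n)).re := one_le_WW_re hlt.le
  have hE := Ef_re_im hw1
  have hlogim : (Complex.log (WW n (zz n))).im = 0 := by
    rw [hw, Complex.log_im, Complex.arg_ofReal_of_nonneg]
    positivity
  obtain ⟨-, hE2, -⟩ := hE
  rw [hlogim, zero_div, add_zero, ← norm_exp_half_log] at hE2
  set X := (Ef (WW n (zz n))).im with hX
  have hX0 : 0 ≤ X := by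
    rw [← hE2, Real.sin_pi_div_four]
    positivity
  have hX2 : et n / (4 * de n) ≤ X ^ 2 := by
    rw [← hE2, mul_pow, norm_Ef_sq (ne_zero_of_re hw1), Real.sin_pi_div_four, div_pow,
      Real.sq_sqrt (by norm_num), hw, Complex.norm_real, Real.norm_eq_abs,
      abs_of_pos (by positivity)]
    have : et n / (4 * de n) = et n / (2 * de n) * (2 / 2 ^ 2) := by
      field_simp
      norm_num
    rw [this]
    refine mul_le_mul_of_nonneg_right ?_ (by norm_num)
    linarith
  have ht := tt_pos n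
  have hb := bb_pos n
  have htb : tt n = bb n * et n / 2 := rfl
  have het1 : et n ≤ 1 := by rw [et_eq]; nlinarith
  have hbX : 1 / tt n ≤ bb n * X := by
    refine (sq_le_sq₀ (by positivity) (by positivity)).1 ?_
    calc (1 / tt n) ^ 2 ≤ 1 / et n * (1 / tt n) ^ 2 := by
          refine le_mul_of_one_le_left (by positivity) ?_
          rwa [le_div_iff₀ het, one_mul]
      _ = bb n ^ 2 * (et n / (4 * de n)) := by
          unfold de
          have hbt : bb n = 2 * tt n / et n := by rw [htb]; field_simp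
          rw [hbt]
          field_simp
          norm_num
      _ ≤ bb n ^ 2 * X ^ 2 := by gcongr
      _ = (bb n * X) ^ 2 := by ring
  have e2 : (Gf n (zz n)).im = bb n * X := by
    unfold Gf
    rw [Complex.add_im, Complex.im_ofReal_mul, Complex.im_ofReal_mul, hlogim, mul_zero, zero_add]
  set e := FF (zz n) - xi n - Gf n (zz n) with he
  have hF : FF (zz n) = xi n + Gf n (zz n) + e := by rw [he]; ring
  have him : (FF (zz n)).im = yy n + (Gf n (zz n)).im + e.im := by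
    rw [hF, Complex.add_im, Complex.add_im, xi_im]
  have hei := (Complex.abs_im_le_norm e).trans h3
  rw [abs_le] at hei
  have hyy : yy n = 3 / 4 * hh n := rfl
  calc 1 / tt n ≤ (FF (zz n)).im := by rw [him, e2]; linarith
    _ ≤ ‖FF (zz n)‖ := Complex.im_le_norm _

theorem tendsto_tt : Tendsto tt atTop (𝓝 0) := by
  have h : Tendsto (fun n => hh n / 64) atTop (𝓝 0) := by
    have := (tendsto_pow_atTop_nhds_zero_of_lt_one (r := (1 / 2 : ℝ)) (by norm_num)
      (by norm_num)).div_const 64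
    rwa [zero_div] at this
  exact squeeze_zero (fun n => (tt_pos n).le) tt_le h

end Pool.Agent.Lib.MP_1ae38f_an
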