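import Pool.Agent.Lib.MP_1ae38f_an.Bergman
import Pool.Agent.Lib.MP_1ae38f_an.HardyD1
import Pool.Agent.Lib.MP_1ae38f_an.MapD2

set_option autoImplicit false

open Metric Set Real MeasureTheory Complex Filter Topology
open scoped ENNReal

namespace Pool.Agent.Lib.MP_1ae38f_an

theorem rpow_lower {α ρ x : ℝ} (hρ : 0 < ρ) (h1 : ρ ≤ x) (h2 : x ≤ 3 * ρ) :
    min 1 ((3 : ℝ) ^ α) * ρ ^ α ≤ x ^ α := by
  have hx : 0 < x := hρ.trans_le h1
  have hρα : 0 < ρ ^ α := Real.rpow_pos_of_pos hρ _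
  rcases le_total 0 α with hα | hα
  · calc min 1 ((3 : ℝ) ^ α) * ρ ^ α ≤ 1 * ρ ^ α := by
          gcongr
          exact min_le_left _ _
      _ = ρ ^ α := one_mul _
      _ ≤ x ^ α := Real.rpow_le_rpow hρ.le h1 hα
  · calc min 1 ((3 : ℝ) ^ α) * ρ ^ α ≤ 3 ^ α * ρ ^ α := by
          gcongr
          exact min_le_right _ _
      _ = (3 * ρ) ^ α := (Real.mul_rpow (by norm_num) hρ.le).symm
      _ ≤ x ^ α := Real.rpow_le_rpow_of_nonpos hx h2 hα

/-- growth of functions in Bergman spaces -/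
theorem growth {p α : ℝ} {f : ℂ → ℂ} (hf : MemBergman p α f) {k : ℕ}
    (hk : (k : ℝ) ≤ p) : ∃ C : ℝ, 0 ≤ C ∧ ∀ z : ℂ, ‖z‖ < 1 →
      ‖f z‖ ^ k ≤ 1 + C * (1 - ‖z‖) ^ (-(α + 2)) := by
  obtain ⟨hd, hint⟩ := hf
  set u : ℂ → ℝ := fun w => ‖f w‖ ^ p * (1 - ‖w‖) ^ α with hu
  have hunn : ∀ w ∈ ball (0 : ℂ) 1, 0 ≤ u w := fun w hw =>
    mul_nonneg (Real.rpow_nonneg (norm_nonneg _) _)
      (Real.rpow_nonneg (sub_pos.2 (mem_ball_zero_iff.1 hw)).le _)
  set J : ℝ := ∫ w in ball (0 : ℂ) 1, u w with hJ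
  have hJ0 : 0 ≤ J := setIntegral_nonneg measurableSet_ball hunn
  set m : ℝ := min 1 ((3 : ℝ) ^ α) with hm
  have hm0 : 0 < m := lt_min one_pos (Real.rpow_pos_of_pos (by norm_num) _)
  refine ⟨J * 2 ^ (α + 2) / (m * π), by positivity, fun z hz => ?_⟩
  set ρ : ℝ := (1 - ‖z‖) / 2 with hρ
  have hρ0 : 0 < ρ := by rw [hρ]; linarith
  have hball : ball z ρ ⊆ ball 0 1 := by
    intro w hw
    rw [mem_ball, dist_eq_norm] at hw
    rw [mem_ball_zero_iff]
    calc ‖w‖ = ‖(w - z) + z‖ := by rw [sub_add_cancel]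
      _ ≤ ‖w - z‖ + ‖z‖ := norm_add_le _ _
      _ < 1 := by rw [hρ] at hw; linarith
  have hmr : 0 < m * ρ ^ α := mul_pos hm0 (Real.rpow_pos_of_pos hρ0 _)
  have hpt : ∀ w ∈ ball z ρ, ‖f w ^ k‖ ≤ 1 + (m * ρ ^ α)⁻¹ * u w := by
    intro w hw
    have hw1 : ‖w - z‖ < ρ := by rwa [← dist_eq_norm]
    have h1 : ‖w‖ ≤ ‖w - z‖ + ‖z‖ := by
      calc ‖w‖ = ‖(w - z) + z‖ := by rw [sub_add_cancel]
        _ ≤ _ := norm_add_le _ _
    have h2 : ‖z‖ ≤ ‖w - z‖ + ‖w‖ := by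
      calc ‖z‖ = ‖w - (w - z)‖ := by congr 1; ring
        _ ≤ ‖w‖ + ‖w - z‖ := norm_sub_le _ _
        _ = _ := add_comm _ _
    have h3 : m * ρ ^ α ≤ (1 - ‖w‖) ^ α :=
      rpow_lower hρ0 (by rw [hρ] at hw1 ⊢; linarith) (by rw [hρ] at hw1 ⊢; linarith)
    have h4 : ‖f w‖ ^ k ≤ 1 + ‖f w‖ ^ p := by
      rcases le_total ‖f w‖ 1 with h | h
      · have := pow_le_one₀ (norm_nonneg _) h (n := k)
        have := Real.rpow_nonneg (norm_nonneg (f w)) p
        linarith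
      · have := Real.rpow_le_rpow_of_exponent_le h hk
        rw [Real.rpow_natCast] at this
        linarith
    have h5 : ‖f w‖ ^ p ≤ (m * ρ ^ α)⁻¹ * u w := by
      rw [hu, inv_mul_eq_div, le_div_iff₀ hmr]
      exact mul_le_mul_of_nonneg_left h3 (Real.rpow_nonneg (norm_nonneg _) _)
    rw [norm_pow]
    linarith
  have hintb : IntegrableOn u (ball z ρ) := hint.mono_set hball
  have hfin : volume (ball z ρ) ≠ ∞ := measure_ball_lt_top.ne
  have hint2 : IntegrableOn (fun w => 1 + (m * ρ ^ α)⁻¹ * u w) (ball z ρ) :=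
    (integrableOn_const hfin).add (hintb.const_mul _)
  have hmean := area_mean (g := fun w => f w ^ k) hρ0 ((hd.mono hball).pow k)
  have h6 : ENNReal.ofReal (π * ρ ^ 2 * ‖f z ^ k‖) ≤
      ENNReal.ofReal (∫ w in ball z ρ, (1 + (m * ρ ^ α)⁻¹ * u w)) := by
    refine hmean.trans ?_
    rw [ofReal_integral_eq_lintegral_ofReal hint2]
    · refine setLIntegral_mono' measurableSet_ball fun w hw => ENNReal.ofReal_le_ofReal (hpt w hw)
    · filter_upwards [ae_restrict_mem measurableSet_ball] with w hw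
      have := hunn w (hball hw)
      change 0 ≤ 1 + (m * ρ ^ α)⁻¹ * u w
      positivity
  have h7 : 0 ≤ ∫ w in ball z ρ, (1 + (m * ρ ^ α)⁻¹ * u w) := by
    refine setIntegral_nonneg measurableSet_ball fun w hw => ?_
    have := hunn w (hball hw)
    positivity
  have hadd : ∫ w in ball z ρ, (1 + (m * ρ ^ α)⁻¹ * u w) =
      volume.real (ball z ρ) + (m * ρ ^ α)⁻¹ * ∫ w in ball z ρ, u w := by
    have e1 : Integrable (fun _ : ℂ => (1 : ℝ)) (volume.restrict (ball z ρ)) :=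
      integrableOn_const hfin
    have e2 : Integrable (fun w => (m * ρ ^ α)⁻¹ * u w) (volume.restrict (ball z ρ)) :=
      hintb.const_mul _
    rw [integral_add e1 e2, integral_const_mul, setIntegral_const, smul_eq_mul, mul_one]
  rw [ENNReal.ofReal_le_ofReal_iff h7, hadd] at h6
  have hvol : volume.real (ball z ρ) = π * ρ ^ 2 := by
    rw [Measure.real, Complex.volume_ball, ENNReal.toReal_mul, ENNReal.toReal_pow,
      ENNReal.toReal_ofReal hρ0.le]
    rw [mul_comm]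
    rfl
  rw [hvol] at h6
  have h8 : ∫ w in ball z ρ, u w ≤ J :=
    setIntegral_mono_set hint
      (by filter_upwards [ae_restrict_mem measurableSet_ball] with w hw using hunn w hw)
      (Eventually.of_forall hball)
  have h9 : π * ρ ^ 2 * ‖f z‖ ^ k ≤ π * ρ ^ 2 + (m * ρ ^ α)⁻¹ * J := by
    rw [norm_pow] at h6
    have : (m * ρ ^ α)⁻¹ * ∫ w in ball z ρ, u w ≤ (m * ρ ^ α)⁻¹ * J := by gcongr
    linarith
  have hπρ : 0 < π * ρ ^ 2 := by positivity
  have h10 : ‖f z‖ ^ k ≤ 1 + (m * ρ ^ α)⁻¹ * J / (π * ρ ^ 2) := by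
    have : ‖f z‖ ^ k ≤ (π * ρ ^ 2 + (m * ρ ^ α)⁻¹ * J) / (π * ρ ^ 2) := by
      rw [le_div_iff₀ hπρ]; linarith
    rwa [add_div, div_self hπρ.ne'] at this
  refine h10.trans (le_of_eq ?_)
  have h11 : (1 - ‖z‖) ^ (-(α + 2)) = (2 ^ (α + 2))⁻¹ * (ρ ^ α * ρ ^ 2)⁻¹ := by
    have e1 : 1 - ‖z‖ = 2 * ρ := by rw [hρ]; ring
    rw [e1, Real.mul_rpow (by norm_num) hρ0.le, Real.rpow_neg (by norm_num),
      Real.rpow_neg hρ0.le, Real.rpow_add hρ0 α 2, Real.rpow_two]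
  rw [h11]
  have h12 : (2 : ℝ) ^ (α + 2) ≠ 0 := (Real.rpow_pos_of_pos (by norm_num) _).ne'
  have h13 : ρ ^ α ≠ 0 := (Real.rpow_pos_of_pos hρ0 _).ne'
  field_simp

/-- The function `FF` is not in Bergman spaces with large exponents. -/
theorem le_of_memBergman_FF {p α : ℝ} (hα : -1 < α) (h : MemBergman p α FF) (hp : 0 < p) :
    p ≤ 4 * (α + 2) + 1 := by
  by_contra hcon
  push Not at hcon
  have hfl : p < (⌊p⌋₊ : ℝ) + 1 := Nat.lt_floor_add_one p
  have hfl2 : ((⌊p⌋₊ : ℕ) : ℝ) ≤ p := Nat.floor_le hp.le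
  set k := ⌊p⌋₊ with hk
  obtain ⟨C, hC, hC2⟩ := growth h hfl2
  set β := 4 * (α + 2) with hβ
  have hβ0 : 0 < β := by rw [hβ]; linarith
  have hkβ : 0 < (k : ℝ) - β := by linarith
  have key : ∀ n, (1 / tt n) ^ ((k : ℝ) - β) ≤ 1 + C := by
    intro n
    have ht := tt_pos n
    have ht1 : tt n ≤ 1 := by
      have := tt_le n; have := hh_le_one n; linarith
    have hlt : ‖zz n‖ < 1 := by rw [norm_zz]; have := de_pos n; linarith
    have h1 := hC2 (zz n) hlt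
    have h2 : (1 / tt n) ^ k ≤ ‖FF (zz n)‖ ^ k :=
      pow_le_pow_left₀ (by positivity) (one_div_tt_le n) k
    have h3 : 1 - ‖zz n‖ = (tt n) ^ (4 : ℝ) := by
      rw [norm_zz, sub_sub_cancel]
      unfold de
      norm_cast
    rw [h3, ← Real.rpow_mul ht.le] at h1
    have h4 : (4 : ℝ) * (-(α + 2)) = -β := by rw [hβ]; ring
    rw [h4] at h1
    have h5 : (1 / tt n) ^ ((k : ℝ) - β) = (1 / tt n) ^ k * (tt n) ^ β := by
      rw [Real.rpow_sub (by positivity), Real.rpow_natCast, div_eq_mul_inv, one_div,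
        Real.inv_rpow ht.le, inv_inv]
    have h6 : (tt n) ^ (-β) * (tt n) ^ β = 1 := by
      rw [← Real.rpow_add ht, neg_add_cancel, Real.rpow_zero]
    have h7 : 0 < (tt n) ^ β := Real.rpow_pos_of_pos ht _
    have h8 : (tt n) ^ β ≤ 1 := Real.rpow_le_one ht.le ht1 hβ0.le
    rw [h5]
    calc (1 / tt n) ^ k * (tt n) ^ β ≤ (1 + C * (tt n) ^ (-β)) * (tt n) ^ β := by
          gcongr
          exact h2.trans h1
      _ = (tt n) ^ β + C * ((tt n) ^ (-β) * (tt n) ^ β) := by ring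
      _ ≤ 1 + C := by rw [h6]; linarith
  have hlim : Tendsto (fun n => (1 / tt n) ^ ((k : ℝ) - β)) atTop atTop := by
    refine (tendsto_rpow_atTop hkβ).comp ?_
    simp only [one_div]
    refine Tendsto.inv_tendsto_nhdsGT_zero ?_
    exact tendsto_nhdsWithin_iff.2 ⟨tendsto_tt, Eventually.of_forall fun n => tt_pos n⟩
  obtain ⟨n, hn⟩ := (hlim.eventually_gt_atTop (1 + C)).exists
  exact absurd (key n) (not_le.2 hn)

theorem le_of_memHardy_FF {p : ℝ} (h : MemHardy p FF) (hp : 0 < p) : p ≤ 9 := by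
  have := le_of_memBergman_FF (α := 0) (by norm_num) (memBergman_of_memHardy hp (by norm_num) h) hp
  linarith

theorem iSup_pos_ofReal_eq_top : ⨆ (p : ℝ) (_ : 0 < p), ENNReal.ofReal p = ⊤ := by
  rw [iSup_eq_top]
  intro b hb
  refine ⟨b.toReal + 1, ?_⟩
  rw [iSup_pos (by positivity)]
  rw [ENNReal.lt_ofReal_iff_toReal_lt hb.ne]
  linarith

theorem hardyNumber_D1 : hardyNumber D1 = ⊤ := by
  unfold hardyNumber
  rw [iInf_eq_top]
  intro f
  rw [iInf_eq_top]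
  intro hf
  unfold hardyOfFun
  rw [← top_le_iff, ← iSup_pos_ofReal_eq_top]
  refine iSup_mono fun p => iSup_mono fun hp => ?_
  rw [iSup_pos (memHardy_of_mapsTo_D1 hf.1 hf.2 hp)]

theorem hardyNumber_D2 : hardyNumber D2 ≤ ENNReal.ofReal 9 := by
  unfold hardyNumber
  refine (iInf₂_le FF FF_mem_Hol).trans ?_
  unfold hardyOfFun
  refine iSup_le fun p => iSup_le fun hp => iSup_le fun h => ?_
  exact ENNReal.ofReal_le_ofReal (le_of_memHardy_FF h hp)

theorem bergmanNumber_D1 : bergmanNumber D1 = ⊤ := by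
  unfold bergmanNumber
  rw [iInf_eq_top]
  intro f
  rw [iInf_eq_top]
  intro hf
  unfold bergmanOfFun
  rw [← top_le_iff, ← iSup_pos_ofReal_eq_top]
  refine iSup_le fun q => iSup_le fun hq => ?_
  refine le_iSup_of_le (2 * q) (le_iSup_of_le 0 ?_)
  have hq2 : 0 < 2 * q := by positivity
  have hm := memBergman_of_memHardy (α := 0) hq2 (by norm_num)
    (memHardy_of_mapsTo_D1 hf.1 hf.2 hq2)
  rw [iSup_pos hq2, iSup_pos (by norm_num), iSup_pos hm]
  refine ENNReal.ofReal_le_ofReal (le_of_eq ?_)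
  field_simp
  norm_num

theorem bergmanNumber_D2 : bergmanNumber D2 ≤ ENNReal.ofReal 5 := by
  unfold bergmanNumber
  refine (iInf₂_le FF FF_mem_Hol).trans ?_
  unfold bergmanOfFun
  refine iSup_le fun p => iSup_le fun α => iSup_le fun hp => iSup_le fun hα => iSup_le fun h => ?_
  refine ENNReal.ofReal_le_ofReal ?_
  have := le_of_memBergman_FF hα h hp
  rw [div_le_iff₀ (by linarith)]
  linarith

theorem weightedBergmanNumber_D1 {α : ℝ} (hα : -1 < α) : weightedBergmanNumber α D1 = ⊤ := by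
  unfold weightedBergmanNumber
  rw [iInf_eq_top]
  intro f
  rw [iInf_eq_top]
  intro hf
  unfold weightedBergmanOfFun
  rw [← top_le_iff, ← iSup_pos_ofReal_eq_top]
  refine iSup_mono fun p => iSup_mono fun hp => ?_
  rw [iSup_pos (memBergman_of_memHardy hp hα (memHardy_of_mapsTo_D1 hf.1 hf.2 hp))]

theorem weightedBergmanNumber_D2 {α : ℝ} (hα : -1 < α) :
    weightedBergmanNumber α D2 ≤ ENNReal.ofReal (4 * (α + 2) + 1) := by
  unfold weightedBergmanNumber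
  refine (iInf₂_le FF FF_mem_Hol).trans ?_
  unfold weightedBergmanOfFun
  refine iSup_le fun p => iSup_le fun hp => iSup_le fun h => ?_
  exact ENNReal.ofReal_le_ofReal (le_of_memBergman_FF hα h hp)

end Pool.Agent.Lib.MP_1ae38f_an
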