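import Pool.Agent.Lib.MP_1ae38f_an.Params

set_option autoImplicit false

open Metric Set Real MeasureTheory Complex Filter Topology

namespace Pool.Agent.Lib.MP_1ae38f_an

noncomputable def yy (n : ℕ) : ℝ := 3 / 4 * hh n

/-- boundary points of the disk accumulating at `1` -/
noncomputable def xi (n : ℕ) : ℂ := ⟨√(1 - yy n ^ 2), yy n⟩

noncomputable def den (n : ℕ) (z : ℂ) : ℂ := 1 + (de n : ℂ) - (starRingEnd ℂ) (xi n) * z

noncomputable def WW (n : ℕ) (z : ℂ) : ℂ := 1 + (et n : ℂ) / den n z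

/-- square root on the right half plane, rotated into the first quadrant -/
noncomputable def Ef (w : ℂ) : ℂ := Complex.exp ((π / 4 : ℝ) * Complex.I + Complex.log w / 2)

/-- the function mapping the disk to a narrow strip which opens far away -/
noncomputable def Gf (n : ℕ) (z : ℂ) : ℂ :=
  (aa n : ℂ) * Complex.log (WW n z) + (bb n : ℂ) * Ef (WW n z)

/-- the holomorphic function from the disk into `D2` -/
noncomputable def FF (z : ℂ) : ℂ := z + ∑' n : ℕ, (Gf n z - Gf n 1)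

theorem yy_pos (n : ℕ) : 0 < yy n := by have := hh_pos n; unfold yy; linarith
theorem yy_le (n : ℕ) : yy n ≤ 3 / 4 := by have := hh_le_one n; unfold yy; linarith

theorem one_sub_yy_sq (n : ℕ) : 7 / 16 ≤ 1 - yy n ^ 2 := by
  have h1 := yy_pos n
  have h2 := yy_le n
  nlinarith

theorem norm_xi (n : ℕ) : ‖xi n‖ = 1 := by
  have h := one_sub_yy_sq n
  have h2 : ‖xi n‖ ^ 2 = 1 := by
    rw [← Complex.normSq_eq_norm_sq, Complex.normSq_apply]
    change √(1 - yy n ^ 2) * √(1 - yy n ^ 2) + yy n * yy n = 1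
    rw [Real.mul_self_sqrt (by linarith)]
    ring
  nlinarith [norm_nonneg (xi n)]

theorem xi_re_ge (n : ℕ) : 7 / 16 ≤ (xi n).re ∧ 1 - (xi n).re ≤ yy n := by
  have h := one_sub_yy_sq n
  have h1 := yy_pos n
  have h2 := yy_le n
  change 7 / 16 ≤ √(1 - yy n ^ 2) ∧ 1 - √(1 - yy n ^ 2) ≤ yy n
  have h3 : 1 - yy n ^ 2 ≤ √(1 - yy n ^ 2) := by
    apply Real.le_sqrt_of_sq_le
    nlinarith
  exact ⟨by linarith, by nlinarith⟩

theorem xi_re_le (n : ℕ) : (xi n).re ≤ 1 := by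
  have := Complex.re_le_norm (xi n)
  rwa [norm_xi] at this

theorem xi_im (n : ℕ) : (xi n).im = yy n := rfl

theorem norm_xi_sub_one_le (n : ℕ) : ‖xi n - 1‖ ≤ 2 * yy n := by
  have h1 := xi_re_ge n
  have h2 := xi_re_le n
  have h3 := yy_pos n
  have := Complex.norm_le_abs_re_add_abs_im (xi n - 1)
  rw [Complex.sub_re, Complex.sub_im, Complex.one_re, Complex.one_im, sub_zero, xi_im,
    abs_of_pos h3, abs_of_nonpos (by linarith)] at this
  linarith

theorem yy_le_norm_xi_sub_one (n : ℕ) : yy n ≤ ‖xi n - 1‖ := by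
  have := Complex.abs_im_le_norm (xi n - 1)
  rw [Complex.sub_im, Complex.one_im, sub_zero, xi_im, abs_of_pos (yy_pos n)] at this
  exact this

theorem norm_conj_xi_mul (n : ℕ) (z : ℂ) : ‖(starRingEnd ℂ) (xi n) * z‖ = ‖z‖ := by
  rw [norm_mul, Complex.norm_conj, norm_xi, one_mul]

theorem den_re_ge (n : ℕ) (z : ℂ) : 1 + de n - ‖z‖ ≤ (den n z).re := by
  unfold den
  rw [Complex.sub_re, Complex.add_re, Complex.one_re, Complex.ofReal_re]
  have := Complex.re_le_norm ((starRingEnd ℂ) (xi n) * z)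
  rw [norm_conj_xi_mul] at this
  linarith

theorem den_re_pos {n : ℕ} {z : ℂ} (hz : ‖z‖ ≤ 1) : 0 < (den n z).re := by
  have := den_re_ge n z
  have := de_pos n
  linarith

theorem den_ne_zero {n : ℕ} {z : ℂ} (hz : ‖z‖ ≤ 1) : den n z ≠ 0 := by
  intro h
  have := den_re_pos (n := n) hz
  rw [h, Complex.zero_re] at this
  exact lt_irrefl _ this

theorem de_le_norm_den {n : ℕ} {z : ℂ} (hz : ‖z‖ ≤ 1) : de n ≤ ‖den n z‖ := by
  have := den_re_ge n z
  have := Complex.re_le_norm (den n z)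
  linarith

theorem norm_sub_le_norm_den {n : ℕ} {z : ℂ} (hz : ‖z‖ ≤ 1) : ‖xi n - z‖ ≤ ‖den n z‖ := by
  have h1 : ‖xi n - z‖ = ‖1 - (starRingEnd ℂ) (xi n) * z‖ := by
    have h2 : xi n - z = xi n * (1 - (starRingEnd ℂ) (xi n) * z) := by
      have h3 : xi n * (starRingEnd ℂ) (xi n) = 1 := by
        rw [Complex.mul_conj, Complex.normSq_eq_norm_sq, norm_xi]; norm_num
      calc xi n - z = xi n - 1 * z := by ring
        _ = xi n - xi n * (starRingEnd ℂ) (xi n) * z := by rw [h3]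
        _ = _ := by ring
    rw [h2, norm_mul, norm_xi, one_mul]
  rw [h1]
  set w := (starRingEnd ℂ) (xi n) * z with hw
  have hwn : ‖w‖ ≤ 1 := by rw [hw, norm_conj_xi_mul]; exact hz
  have hre : w.re ≤ 1 := (Complex.re_le_norm w).trans hwn
  have hd : den n z = (1 - w) + (de n : ℂ) := by unfold den; rw [← hw]; ring
  have hde := de_pos n
  refine (sq_le_sq₀ (norm_nonneg _) (norm_nonneg _)).1 ?_
  rw [hd, ← Complex.normSq_eq_norm_sq, ← Complex.normSq_eq_norm_sq, Complex.normSq_apply,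
    Complex.normSq_apply]
  simp only [Complex.sub_re, Complex.one_re, Complex.sub_im, Complex.one_im, Complex.add_re,
    Complex.add_im, Complex.ofReal_re, Complex.ofReal_im, add_zero]
  nlinarith

theorem one_le_WW_re {n : ℕ} {z : ℂ} (hz : ‖z‖ ≤ 1) : 1 ≤ (WW n z).re := by
  unfold WW
  rw [Complex.add_re, Complex.one_re, Complex.div_re, Complex.ofReal_re, Complex.ofReal_im,
    zero_mul, zero_div, add_zero]
  have h1 := et_pos n
  have h2 := den_re_pos (n := n) hz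
  have h3 : 0 < Complex.normSq (den n z) := Complex.normSq_pos.2 (den_ne_zero hz)
  have : 0 < et n * (den n z).re / Complex.normSq (den n z) := by positivity
  linarith

theorem norm_WW_sub_one {n : ℕ} (z : ℂ) : ‖WW n z - 1‖ = et n / ‖den n z‖ := by
  unfold WW
  rw [add_sub_cancel_left, norm_div, Complex.norm_real, Real.norm_eq_abs, abs_of_pos (et_pos n)]

theorem norm_WW_sub {n : ℕ} {z w : ℂ} (hz : ‖z‖ ≤ 1) (hw : ‖w‖ ≤ 1) :
    ‖WW n z - WW n w‖ = et n * ‖z - w‖ / (‖den n z‖ * ‖den n w‖) := by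
  have h1 := den_ne_zero (n := n) hz
  have h2 := den_ne_zero (n := n) hw
  have h3 : WW n z - WW n w =
      (et n : ℂ) * ((starRingEnd ℂ) (xi n) * (z - w)) / (den n z * den n w) := by
    unfold WW
    rw [add_sub_add_left_eq_sub, div_sub_div _ _ h1 h2]
    congr 1
    unfold den
    ring
  rw [h3, norm_div, norm_mul, norm_conj_xi_mul, norm_mul, Complex.norm_real, Real.norm_eq_abs,
    abs_of_pos (et_pos n)]

/-- the half plane `Re > 1/2`... we use `Re ≥ 1` -/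
theorem convex_re_ge : Convex ℝ {w : ℂ | 1 ≤ w.re} := convex_halfSpace_re_ge 1

theorem mem_slit {w : ℂ} (hw : 1 ≤ w.re) : w ∈ Complex.slitPlane :=
  Or.inl (zero_lt_one.trans_le hw)

theorem norm_log_sub_log_le {w w' : ℂ} (hw : 1 ≤ w.re) (hw' : 1 ≤ w'.re) :
    ‖Complex.log w - Complex.log w'‖ ≤ ‖w - w'‖ := by
  have h := Convex.norm_image_sub_le_of_norm_hasDerivWithin_le (𝕜 := ℂ) (f := Complex.log)
    (f' := fun w => w⁻¹) (C := 1) (s := {w : ℂ | 1 ≤ w.re}) (x := w') (y := w)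
    (fun x hx => (Complex.hasDerivAt_log (mem_slit hx)).hasDerivWithinAt) (fun x hx => by
      have h1 : 1 ≤ ‖x‖ := le_trans hx (Complex.re_le_norm x)
      rw [norm_inv]
      exact inv_le_one_of_one_le₀ h1) convex_re_ge hw' hw
  rwa [one_mul] at h

theorem norm_exp_half_log (w : ℂ) :
    ‖Ef w‖ = Real.exp ((Complex.log w).re / 2) := by
  unfold Ef
  rw [Complex.norm_exp]
  congr 1
  rw [Complex.add_re, Complex.re_ofReal_mul, Complex.I_re, mul_zero, zero_add]
  simp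

theorem norm_Ef_sq {w : ℂ} (hw : w ≠ 0) : ‖Ef w‖ ^ 2 = ‖w‖ := by
  rw [norm_exp_half_log, ← Real.exp_nat_mul, Complex.log_re]
  have : ((2 : ℕ) : ℝ) * (Real.log ‖w‖ / 2) = Real.log ‖w‖ := by push_cast; ring
  rw [this, Real.exp_log (norm_pos_iff.2 hw)]

theorem hasDerivAt_Ef {w : ℂ} (hw : 1 ≤ w.re) : HasDerivAt Ef (Ef w * (w⁻¹ / 2)) w := by
  unfold Ef
  have h1 := Complex.hasDerivAt_log (mem_slit hw)
  have h2 : HasDerivAt (fun w => ((π / 4 : ℝ) : ℂ) * Complex.I + Complex.log w / 2) (w⁻¹ / 2) w :=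
    (h1.div_const 2).const_add _
  exact h2.cexp

theorem ne_zero_of_re {w : ℂ} (hw : 1 ≤ w.re) : w ≠ 0 := by
  rintro rfl
  norm_num at hw

theorem norm_Ef_le {w : ℂ} (hw : 1 ≤ w.re) : 1 ≤ ‖Ef w‖ ∧ ‖Ef w‖ ≤ ‖w‖ := by
  have h1 : 1 ≤ ‖w‖ := le_trans hw (Complex.re_le_norm w)
  have h2 := norm_Ef_sq (ne_zero_of_re hw)
  have h3 := norm_nonneg (Ef w)
  have h4 : 1 ≤ ‖Ef w‖ := by nlinarith
  exact ⟨h4, by nlinarith⟩

theorem norm_Ef_sub_le {w w' : ℂ} (hw : 1 ≤ w.re) (hw' : 1 ≤ w'.re) :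
    ‖Ef w - Ef w'‖ ≤ ‖w - w'‖ := by
  have h := Convex.norm_image_sub_le_of_norm_hasDerivWithin_le (𝕜 := ℂ) (f := Ef)
    (f' := fun w => Ef w * (w⁻¹ / 2)) (C := 1) (s := {w : ℂ | 1 ≤ w.re}) (x := w') (y := w)
    (fun x hx => (hasDerivAt_Ef hx).hasDerivWithinAt) (fun x hx => by
      obtain ⟨h1, h2⟩ := norm_Ef_le hx
      have h3 : 0 < ‖x‖ := by linarith
      rw [norm_mul, norm_div, norm_inv]
      have h4 : ‖Ef x‖ * (‖x‖⁻¹ / ‖(2 : ℂ)‖) = ‖Ef x‖ / ‖x‖ / 2 := by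
        rw [Complex.norm_ofNat]; field_simp
      rw [h4]
      have h5 : ‖Ef x‖ / ‖x‖ ≤ 1 := (div_le_one h3).2 h2
      linarith) convex_re_ge hw' hw
  rwa [one_mul] at h

theorem bb_le (n : ℕ) : bb n ≤ aa n / 64 := by
  have h1 := aa_pos n
  have h2 := four_le_RR n
  have h3 : aa n ≤ 1 / 64 := by rw [aa_eq]; have := hh_le_one n; linarith
  change aa n * Real.exp (-(RR n + 3) / (2 * aa n)) ≤ aa n / 64
  have h4 : Real.exp (-(RR n + 3) / (2 * aa n)) ≤ 1 / 64 := by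
    have h5 : (64 : ℝ) ≤ (RR n + 3) / (2 * aa n) := by
      rw [le_div_iff₀ (by positivity)]
      linarith
    have h6 : (64 : ℝ) ≤ Real.exp ((RR n + 3) / (2 * aa n)) := by
      have := Real.add_one_le_exp ((RR n + 3) / (2 * aa n))
      linarith
    have h7 : -(RR n + 3) / (2 * aa n) = -((RR n + 3) / (2 * aa n)) := by ring
    rw [h7, Real.exp_neg, ← one_div]
    exact one_div_le_one_div_of_le (by norm_num) h6
  calc aa n * Real.exp (-(RR n + 3) / (2 * aa n)) ≤ aa n * (1 / 64) :=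
        mul_le_mul_of_nonneg_left h4 h1.le
    _ = aa n / 64 := by ring

theorem norm_Gf_sub_le {n : ℕ} {z w : ℂ} (hz : ‖z‖ ≤ 1) (hw : ‖w‖ ≤ 1) :
    ‖Gf n z - Gf n w‖ ≤ hh n / 32 * ‖WW n z - WW n w‖ := by
  have h1 := norm_log_sub_log_le (one_le_WW_re (n := n) hz) (one_le_WW_re (n := n) hw)
  have h2 := norm_Ef_sub_le (one_le_WW_re (n := n) hz) (one_le_WW_re (n := n) hw)
  have ha := aa_pos n
  have hb := bb_pos n
  have hb2 := bb_le n
  have haa := aa_eq n
  have h3 : Gf n z - Gf n w = (aa n : ℂ) * (Complex.log (WW n z) - Complex.log (WW n w)) +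
      (bb n : ℂ) * (Ef (WW n z) - Ef (WW n w)) := by unfold Gf; ring
  have h0 := norm_nonneg (WW n z - WW n w)
  calc ‖Gf n z - Gf n w‖ ≤ ‖(aa n : ℂ) * (Complex.log (WW n z) - Complex.log (WW n w))‖ +
        ‖(bb n : ℂ) * (Ef (WW n z) - Ef (WW n w))‖ := by rw [h3]; exact norm_add_le _ _
    _ = aa n * ‖Complex.log (WW n z) - Complex.log (WW n w)‖ +
        bb n * ‖Ef (WW n z) - Ef (WW n w)‖ := by
        rw [norm_mul, norm_mul, Complex.norm_real, Complex.norm_real, Real.norm_eq_abs,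
          Real.norm_eq_abs, abs_of_pos ha, abs_of_pos hb]
    _ ≤ aa n * ‖WW n z - WW n w‖ + bb n * ‖WW n z - WW n w‖ := by gcongr
    _ = (aa n + bb n) * ‖WW n z - WW n w‖ := by ring
    _ ≤ hh n / 32 * ‖WW n z - WW n w‖ := by
        refine mul_le_mul_of_nonneg_right ?_ h0
        linarith

theorem norm_den_one_ge (n : ℕ) : 3 / 4 * hh n ≤ ‖den n 1‖ :=
  (yy_le_norm_xi_sub_one n).trans (norm_sub_le_norm_den (by simp))

/-- bound for the increments when the denominator is not small -/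
theorem norm_Gf_sub_one_le {n : ℕ} {z : ℂ} (hz : ‖z‖ ≤ 1) {ρ : ℝ} (hρ : 0 < ρ)
    (h : ρ ≤ ‖den n z‖) : ‖Gf n z - Gf n 1‖ ≤ hh n * (hh n / 98304 / ρ) * ‖z - 1‖ := by
  have h1 := norm_Gf_sub_le (n := n) hz (w := 1) (by simp)
  rw [norm_WW_sub hz (by simp)] at h1
  have hh0 := hh_pos n
  have he := et_eq n
  have hd := norm_den_one_ge n
  refine h1.trans ?_
  have h2 : et n * ‖z - 1‖ / (‖den n z‖ * ‖den n 1‖) ≤
      et n * ‖z - 1‖ / (ρ * (3 / 4 * hh n)) := by
    have := et_pos n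
    gcongr
  calc hh n / 32 * (et n * ‖z - 1‖ / (‖den n z‖ * ‖den n 1‖))
      ≤ hh n / 32 * (et n * ‖z - 1‖ / (ρ * (3 / 4 * hh n))) := by gcongr
    _ = hh n * (hh n / 98304 / ρ) * ‖z - 1‖ := by
        rw [he]; field_simp; ring

theorem norm_Gf_sub_one_le_of_far {n : ℕ} {z : ℂ} (hz : ‖z‖ ≤ 1) (h : rh n ≤ ‖xi n - z‖) :
    ‖Gf n z - Gf n 1‖ ≤ hh n / 3072 * ‖z - 1‖ := by
  have h1 := norm_Gf_sub_one_le hz (rh_pos n) (h.trans (norm_sub_le_norm_den hz))
  refine h1.trans (le_of_eq ?_)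
  have hh0 := hh_pos n
  rw [rh_eq]
  field_simp
  ring

theorem differentiableAt_Gf {n : ℕ} {z : ℂ} (hz : ‖z‖ ≤ 1) : DifferentiableAt ℂ (Gf n) z := by
  have h1 : DifferentiableAt ℂ (den n) z := by unfold den; fun_prop
  have h2 : DifferentiableAt ℂ (WW n) z := by
    unfold WW
    exact (differentiableAt_const _).add ((differentiableAt_const _).div h1 (den_ne_zero hz))
  have h3 := one_le_WW_re (n := n) hz
  have h4 : DifferentiableAt ℂ (fun z => Complex.log (WW n z)) z :=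
    h2.clog (mem_slit h3)
  have h5 : DifferentiableAt ℂ (fun z => Ef (WW n z)) z :=
    (hasDerivAt_Ef h3).differentiableAt.comp z h2
  unfold Gf
  exact (h4.const_mul _).add (h5.const_mul _)

theorem summable_hh : Summable hh := summable_geometric_of_lt_one (by norm_num) (by norm_num)

theorem norm_Gf_sub_one_le' {n : ℕ} {z : ℂ} {r : ℝ} (hr : r < 1) (hz : ‖z‖ ≤ r) :
    ‖Gf n z - Gf n 1‖ ≤ hh n * (1 / (1 - r)) := by
  have hr' : 0 < 1 - r := sub_pos.2 hr
  have h1 : 1 - r ≤ ‖den n z‖ := by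
    have := den_re_ge n z
    have := Complex.re_le_norm (den n z)
    have := de_pos n
    linarith
  have hz1 : ‖z‖ ≤ 1 := hz.trans hr.le
  have h2 := norm_Gf_sub_one_le hz1 hr' h1
  have h3 : ‖z - 1‖ ≤ 2 := by
    calc ‖z - 1‖ ≤ ‖z‖ + ‖(1 : ℂ)‖ := norm_sub_le _ _
      _ ≤ 2 := by rw [norm_one]; linarith
  have h4 := hh_pos n
  have h5 := hh_le_one n
  calc ‖Gf n z - Gf n 1‖ ≤ hh n * (hh n / 98304 / (1 - r)) * ‖z - 1‖ := h2
    _ ≤ hh n * (1 / 98304 / (1 - r)) * 2 := by gcongr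
    _ ≤ hh n * (1 / (1 - r)) := by
      rw [mul_assoc]
      refine mul_le_mul_of_nonneg_left ?_ h4.le
      rw [div_mul_eq_mul_div]
      gcongr
      norm_num

theorem summable_Gf {z : ℂ} (hz : ‖z‖ < 1) : Summable fun n => Gf n z - Gf n 1 :=
  Summable.of_norm_bounded (summable_hh.mul_right (1 / (1 - ‖z‖)))
    fun _ => norm_Gf_sub_one_le' hz le_rfl

theorem differentiableOn_FF : DifferentiableOn ℂ FF (ball 0 1) := by
  intro z hz
  rw [mem_ball_zero_iff] at hz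
  obtain ⟨r, hr1, hr2⟩ := exists_between hz
  have h1 : DifferentiableOn ℂ (fun z => ∑' n : ℕ, (Gf n z - Gf n 1)) (ball 0 r) := by
    refine differentiableOn_tsum_of_summable_norm (u := fun n => hh n * (1 / (1 - r)))
      (summable_hh.mul_right _) (fun n w hw => ?_) isOpen_ball (fun n w hw => ?_)
    · rw [mem_ball_zero_iff] at hw
      exact ((differentiableAt_Gf (hw.le.trans hr2.le)).sub_const _).differentiableWithinAt
    · rw [mem_ball_zero_iff] at hw
      exact norm_Gf_sub_one_le' hr2 hw.le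
  have h2 : DifferentiableAt ℂ FF z := by
    unfold FF
    refine differentiableAt_id.add ?_
    exact h1.differentiableAt (isOpen_ball.mem_nhds (mem_ball_zero_iff.2 hr1))
  exact h2.differentiableWithinAt

end Pool.Agent.Lib.MP_1ae38f_an
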