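import Pool.Agent.Lib.MP_1ae38f_an.Defs

set_option autoImplicit false

open Metric Set Real MeasureTheory Complex

namespace Pool.Agent.Lib.MP_1ae38f_an

/-- heights of the horizontal walls -/
noncomputable def hh (n : ℕ) : ℝ := (1 / 2 : ℝ) ^ n

/-- width parameter of the `n`-th channel -/
noncomputable def aa (n : ℕ) : ℝ := (1 / 2 : ℝ) ^ n / 64

/-- amplitude of the `n`-th peak -/
noncomputable def et (n : ℕ) : ℝ := (1 / 4 : ℝ) ^ n / 4096

/-- radius of the neighbourhood of the `n`-th boundary point -/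
noncomputable def rh (n : ℕ) : ℝ := (1 / 2 : ℝ) ^ n / 32

/-- size of the wide term, as a function of the previous radius -/
noncomputable def bOf (n : ℕ) (R : ℝ) : ℝ := aa n * Real.exp (-(R + 3) / (2 * aa n))

noncomputable def tOf (n : ℕ) (R : ℝ) : ℝ := bOf n R * et n / 2

/-- the radii -/
noncomputable def RR : ℕ → ℝ
  | 0 => 4
  | n + 1 => RR n + 4 + 1 / (tOf n (RR n)) ^ 4

noncomputable def bb (n : ℕ) : ℝ := bOf n (RR n)

noncomputable def tt (n : ℕ) : ℝ := tOf n (RR n)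

/-- distance of the poles to the unit circle -/
noncomputable def de (n : ℕ) : ℝ := (tt n) ^ 4

theorem RR_succ (n : ℕ) : RR (n + 1) = RR n + 4 + 1 / de n := rfl

theorem hh_pos (n : ℕ) : 0 < hh n := by unfold hh; positivity
theorem aa_pos (n : ℕ) : 0 < aa n := by unfold aa; positivity
theorem et_pos (n : ℕ) : 0 < et n := by unfold et; positivity
theorem rh_pos (n : ℕ) : 0 < rh n := by unfold rh; positivity
theorem bb_pos (n : ℕ) : 0 < bb n := by
  unfold bb bOf; have := aa_pos n; positivity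
theorem tt_pos (n : ℕ) : 0 < tt n := by
  have := bb_pos n; have := et_pos n
  change 0 < bb n * et n / 2
  positivity
theorem de_pos (n : ℕ) : 0 < de n := by unfold de; have := tt_pos n; positivity

theorem hh_succ (n : ℕ) : hh (n + 1) = hh n / 2 := by unfold hh; rw [pow_succ]; ring

theorem hh_le_one (n : ℕ) : hh n ≤ 1 := by
  unfold hh; exact pow_le_one₀ (by norm_num) (by norm_num)

theorem hh_anti {m n : ℕ} (h : m ≤ n) : hh n ≤ hh m := by
  unfold hh; exact pow_le_pow_of_le_one (by norm_num) (by norm_num) h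

theorem aa_eq (n : ℕ) : aa n = hh n / 64 := rfl
theorem rh_eq (n : ℕ) : rh n = hh n / 32 := rfl
theorem et_eq (n : ℕ) : et n = hh n ^ 2 / 4096 := by
  unfold et hh; rw [← pow_mul, mul_comm n 2, pow_mul]; norm_num

theorem RR_add_four_le (n : ℕ) : RR n + 4 ≤ RR (n + 1) := by
  rw [RR_succ]; have := de_pos n; have : 0 < 1 / de n := by positivity
  linarith

theorem RR_strictMono : StrictMono RR :=
  strictMono_nat_of_lt_succ fun n => by have := RR_add_four_le n; linarith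

theorem RR_mono {m n : ℕ} (h : m ≤ n) : RR m ≤ RR n := RR_strictMono.monotone h

theorem four_le_RR (n : ℕ) : 4 ≤ RR n := RR_mono (Nat.zero_le n)

theorem RR_lt_add {m n : ℕ} (h : m < n) : RR m + 4 ≤ RR n :=
  (RR_add_four_le m).trans (RR_mono h)

/-- weights -/
noncomputable def MM (n : ℕ) : ℝ := (3 * RR (n + 2)) ^ (n + 1)

theorem one_le_MM (n : ℕ) : 1 ≤ MM n := by
  unfold MM
  refine one_le_pow₀ ?_
  have := four_le_RR (n + 2)
  linarith

/-- size of the gates -/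
noncomputable def ep (n : ℕ) : ℝ := (1 / 2 : ℝ) ^ n / (4 * MM n)

theorem ep_pos (n : ℕ) : 0 < ep n := by
  unfold ep; have := one_le_MM n; positivity

theorem ep_le (n : ℕ) : ep n ≤ 1 / 4 := by
  unfold ep
  have h1 := one_le_MM n
  have h2 : (1 / 2 : ℝ) ^ n ≤ 1 := pow_le_one₀ (by norm_num) (by norm_num)
  rw [div_le_div_iff₀ (by positivity) (by norm_num)]
  linarith

theorem MM_mul_ep (n : ℕ) : MM n * (4 * ep n) = (1 / 2 : ℝ) ^ n := by
  unfold ep
  have h1 : MM n ≠ 0 := by have := one_le_MM n; positivity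
  field_simp

/-- bottom strip of the `n`-th cell -/
def SS (n : ℕ) : Set ℂ := {z | (0 < z.re ∧ z.re < RR (n + 1)) ∧ (hh (n + 1) < z.im ∧ z.im < hh n)}

/-- room of the `n`-th cell -/
def TT (n : ℕ) : Set ℂ :=
  {z | (RR n < z.re ∧ z.re < RR (n + 1)) ∧ (hh (n + 1) < z.im ∧ z.im < RR (n + 1))}

/-- centre of the `n`-th gate -/
noncomputable def gc (n : ℕ) : ℂ := ⟨RR (n + 1), 2⟩

/-- gate between the `n`-th and the `(n+1)`-st cell -/
def GG (n : ℕ) : Set ℂ := ball (gc n) (ep n)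

/-- the first domain -/
def D1 : Set ℂ := ⋃ n : ℕ, (SS n ∪ TT n ∪ GG n)

/-- the second domain -/
def D2 : Set ℂ := D1 ∪ ball 0 2

theorem isOpen_box (a b c d : ℝ) :
    IsOpen {z : ℂ | (a < z.re ∧ z.re < b) ∧ (c < z.im ∧ z.im < d)} := by
  refine IsOpen.and (IsOpen.and ?_ ?_) (IsOpen.and ?_ ?_)
  · exact isOpen_lt continuous_const Complex.continuous_re
  · exact isOpen_lt Complex.continuous_re continuous_const
  · exact isOpen_lt continuous_const Complex.continuous_im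
  · exact isOpen_lt Complex.continuous_im continuous_const

theorem convex_box (a b c d : ℝ) :
    Convex ℝ {z : ℂ | (a < z.re ∧ z.re < b) ∧ (c < z.im ∧ z.im < d)} := by
  have h1 : {z : ℂ | (a < z.re ∧ z.re < b) ∧ (c < z.im ∧ z.im < d)} =
      (Complex.reCLM ⁻¹' Ioo a b) ∩ (Complex.imCLM ⁻¹' Ioo c d) := by
    ext z; simp [and_assoc]
  rw [h1]
  exact ((convex_Ioo a b).linear_preimage Complex.reCLM.toLinearMap).inter
    ((convex_Ioo c d).linear_preimage Complex.imCLM.toLinearMap)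

theorem isOpen_SS (n : ℕ) : IsOpen (SS n) := isOpen_box _ _ _ _
theorem isOpen_TT (n : ℕ) : IsOpen (TT n) := isOpen_box _ _ _ _
theorem isOpen_GG (n : ℕ) : IsOpen (GG n) := isOpen_ball

theorem isOpen_D1 : IsOpen D1 :=
  isOpen_iUnion fun n => ((isOpen_SS n).union (isOpen_TT n)).union (isOpen_GG n)

theorem isOpen_D2 : IsOpen D2 := isOpen_D1.union isOpen_ball

theorem mem_gc_re_im {n : ℕ} {z : ℂ} (hz : z ∈ GG n) :
    |z.re - RR (n + 1)| < ep n ∧ |z.im - 2| < ep n := by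
  have h1 : ‖z - gc n‖ < ep n := by rwa [← dist_eq_norm]
  constructor
  · exact (Complex.abs_re_le_norm (z - gc n)).trans_lt h1
  · exact (Complex.abs_im_le_norm (z - gc n)).trans_lt h1

theorem isPreconnected_cell (n : ℕ) : IsPreconnected (SS n ∪ TT n ∪ GG n) := by
  have hS : IsPreconnected (SS n) := (convex_box _ _ _ _).isPreconnected
  have hT : IsPreconnected (TT n) := (convex_box _ _ _ _).isPreconnected
  have hG : IsPreconnected (GG n) := (convex_ball _ _).isPreconnected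
  have hR := RR_add_four_le n
  have hR4 := four_le_RR n
  have hh1 := hh_pos n
  have hh2 := hh_succ n
  have hh3 := hh_le_one n
  have h1 : IsPreconnected (SS n ∪ TT n) := by
    refine IsPreconnected.union (⟨RR n + 1, 3 / 4 * hh n⟩ : ℂ) ?_ ?_ hS hT
    · refine ⟨⟨?_, ?_⟩, ⟨?_, ?_⟩⟩ <;> dsimp only <;> linarith
    · refine ⟨⟨?_, ?_⟩, ⟨?_, ?_⟩⟩ <;> dsimp only <;> linarith
  have he := ep_pos n
  have he2 := ep_le n
  refine IsPreconnected.union (⟨RR (n + 1) - ep n / 2, 2⟩ : ℂ) ?_ ?_ h1 hG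
  · right
    refine ⟨⟨?_, ?_⟩, ⟨?_, ?_⟩⟩ <;> dsimp only <;> linarith
  · rw [GG, mem_ball, dist_eq_norm]
    have : (⟨RR (n + 1) - ep n / 2, 2⟩ : ℂ) - gc n = ((-(ep n / 2) : ℝ) : ℂ) := by
      apply Complex.ext <;> simp [gc]
    rw [this, Complex.norm_real, norm_neg, Real.norm_eq_abs, abs_of_pos (by positivity)]
    linarith

theorem isConnected_D1 : IsConnected D1 := by
  refine ⟨?_, ?_⟩
  · refine ⟨gc 0, mem_iUnion.2 ⟨0, Or.inr ?_⟩⟩
    exact mem_ball_self (ep_pos 0)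
  · refine IsPreconnected.iUnion_of_chain isPreconnected_cell fun n => ?_
    have he := ep_pos n
    have he2 := ep_le n
    have hR := RR_add_four_le (n + 1)
    have hR4 := four_le_RR (n + 1)
    have hh3 := hh_le_one (n + 1 + 1)
    refine ⟨(⟨RR (n + 1) + ep n / 2, 2⟩ : ℂ), Or.inr ?_, ?_⟩
    · rw [GG, mem_ball, dist_eq_norm]
      have : (⟨RR (n + 1) + ep n / 2, 2⟩ : ℂ) - gc n = (((ep n / 2) : ℝ) : ℂ) := by
        apply Complex.ext <;> simp [gc]
      rw [this, Complex.norm_real, Real.norm_eq_abs, abs_of_pos (by positivity)]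
      linarith
    · change (⟨RR (n + 1) + ep n / 2, 2⟩ : ℂ) ∈ SS (n + 1) ∪ TT (n + 1) ∪ GG (n + 1)
      refine Or.inl (Or.inr ?_)
      refine ⟨⟨?_, ?_⟩, ⟨?_, ?_⟩⟩ <;> dsimp only <;> linarith

theorem isConnected_D2 : IsConnected D2 := by
  refine ⟨isConnected_D1.nonempty.mono subset_union_left, ?_⟩
  have hR4 := four_le_RR (0 + 1)
  refine IsPreconnected.union (⟨1, 3 / 4⟩ : ℂ) ?_ ?_ isConnected_D1.isPreconnected
    (convex_ball _ _).isPreconnected
  · refine mem_iUnion.2 ⟨0, Or.inl (Or.inl ?_)⟩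
    refine ⟨⟨?_, ?_⟩, ⟨?_, ?_⟩⟩ <;> dsimp only
    · norm_num
    · linarith
    · norm_num [hh]
    · norm_num [hh]
  · rw [mem_ball_zero_iff]
    calc ‖(⟨1, 3 / 4⟩ : ℂ)‖ ≤ |(⟨1, 3 / 4⟩ : ℂ).re| + |(⟨1, 3 / 4⟩ : ℂ).im| :=
          Complex.norm_le_abs_re_add_abs_im _
      _ < 2 := by
        dsimp only
        rw [abs_of_pos, abs_of_pos] <;> norm_num

theorem isDomainSet_D1 : IsDomainSet D1 := ⟨isOpen_D1, isConnected_D1⟩
theorem isDomainSet_D2 : IsDomainSet D2 := ⟨isOpen_D2, isConnected_D2⟩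

theorem agreeNearInfinity_D1_D2 : AgreeNearInfinity D1 D2 := by
  refine ⟨2, two_pos, ?_⟩
  ext z
  constructor
  · rintro ⟨h1, h2⟩
    exact ⟨Or.inl h1, h2⟩
  · rintro ⟨h1 | h1, h2⟩
    · exact ⟨h1, h2⟩
    · rw [mem_ball_zero_iff] at h1
      exact absurd h2 (not_lt.2 h1.le)

end Pool.Agent.Lib.MP_1ae38f_an
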